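import Mathlib

/-!
General counting lemmas: pigeonhole, Markov, grouping, random selection, small subsets.
-/

namespace Pool.Agent.P.MP_a54059_lc.EX

open Finset

/-- Pigeonhole: a popular value. -/
theorem popular {X γ : Type} [DecidableEq γ] (A : Finset X) (hA : A.Nonempty) (f : X → γ)
    (n : ℕ) (hn : (A.image f).card ≤ n) :
    ∃ x ∈ A, A.card ≤ n * (A.filter (fun x' => f x' = f x)).card := by
  obtain ⟨x, hx, hmax⟩ := exists_max_image A (fun x => (A.filter (fun x' => f x' = f x)).card) hA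
  refine ⟨x, hx, ?_⟩
  calc A.card = ∑ b ∈ A.image f, (A.filter (fun x' => f x' = b)).card :=
        card_eq_sum_card_image f A
    _ ≤ (A.image f).card • (A.filter (fun x' => f x' = f x)).card := by
        apply sum_le_card_nsmul
        intro b hb
        obtain ⟨x', hx', rfl⟩ := mem_image.1 hb
        exact hmax x' hx'
    _ ≤ _ := by
        rw [smul_eq_mul]
        exact Nat.mul_le_mul_right _ hn

/-- Markov: at least half of the points have a value below one. -/
theorem markov {X : Type} (S : Finset X) (φ : X → ℝ) (h0 : ∀ y ∈ S, 0 ≤ φ y)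
    (h : ∑ y ∈ S, φ y ≤ S.card / 2) :
    S.card ≤ 2 * (S.filter (fun y => φ y < 1)).card := by
  classical
  have h1 : ((S.filter (fun y => ¬ φ y < 1)).card : ℝ) ≤ ∑ y ∈ S, φ y := by
    calc _ = ∑ _y ∈ S.filter (fun y => ¬ φ y < 1), (1 : ℝ) := by simp
      _ ≤ ∑ y ∈ S.filter (fun y => ¬ φ y < 1), φ y :=
          sum_le_sum fun y hy => not_lt.1 (mem_filter.1 hy).2
      _ ≤ _ := sum_le_sum_of_subset_of_nonneg (filter_subset _ _) fun y hy _ => h0 y hy
  have h2 := card_filter_add_card_filter_not (s := S) (fun y => φ y < 1)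
  have h3 : ((S.filter (fun y => φ y < 1)).card : ℝ) + (S.filter (fun y => ¬ φ y < 1)).card
      = S.card := by exact_mod_cast h2
  have h4 : (S.card : ℝ) ≤ 2 * (S.filter (fun y => φ y < 1)).card := by linarith
  exact_mod_cast h4

theorem group_aux {V : Type} [DecidableEq V] (s : V → ℕ) (r : ℕ) (hs : ∀ a, s a < r)
    (C : Finset V) : ∃ γ : V → ℕ, (∀ a, γ a * r ≤ ∑ a ∈ C, s a) ∧
      ∀ n, ∑ a ∈ C with γ a = n, s a ≤ 2 * r ∧
        ∑ a ∈ C with γ a = n, s a ≤ ∑ a ∈ C, s a - n * r := by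
  induction C using Finset.induction_on with
  | empty => exact ⟨fun _ => 0, by simp, by simp⟩
  | insert c C hc ih =>
    obtain ⟨γ, h1, h2⟩ := ih
    have hr : 0 < r := lt_of_le_of_lt (Nat.zero_le _) (hs c)
    obtain ⟨t, ht⟩ : ∃ t, t = ∑ a ∈ C, s a := ⟨_, rfl⟩
    rw [← ht] at h1 h2
    have d1 : t / r * r ≤ t := Nat.div_mul_le_self t r
    have d2 : t < t / r * r + r := Nat.lt_div_mul_add hr
    refine ⟨Function.update γ c (t / r), ?_, ?_⟩
    · intro a
      rw [sum_insert hc, ← ht]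
      by_cases h : a = c
      · rw [h, Function.update_self]; omega
      · rw [Function.update_of_ne h]
        have := h1 a
        omega
    · intro n
      have e : C.filter (fun a => Function.update γ c (t / r) a = n)
          = C.filter (fun a => γ a = n) := by
        apply filter_congr
        intro a ha
        rw [Function.update_of_ne (by rintro rfl; exact hc ha)]
      have hcs := hs c
      obtain ⟨a1, a2⟩ := h2 n
      rw [filter_insert, sum_insert hc, ← ht, Function.update_self, e]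
      split_ifs with h
      · rw [sum_insert (fun h' => hc (mem_filter.1 h').1)]
        subst h
        omega
      · omega

/-- Grouping small disjoint residues into few groups of bounded size. -/
theorem group {Y V : Type} [DecidableEq Y] (B : Finset Y) (β : Y → V) (R : V → Finset Y) (L : ℕ)
    (h1 : ∀ a, ∀ y ∈ R a, y ∈ B ∧ β y = a) (h2 : ∀ a, 2 ^ L * (R a).card < B.card) :
    ∃ (γ : V → ℕ) (W : ℕ → Finset Y), (∀ a, γ a ≤ 2 ^ L) ∧ (∀ a, R a ⊆ W (γ a)) ∧
      (∀ n, ∀ y ∈ W n, n = γ (β y)) ∧ ∀ n, 2 ^ L * (W n).card ≤ 2 * B.card := by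
  classical
  obtain ⟨γ, g1, g2⟩ := group_aux (fun a => 2 ^ L * (R a).card) B.card h2 (B.image β)
  have hsum : ∑ a ∈ B.image β, 2 ^ L * (R a).card ≤ 2 ^ L * B.card := by
    rw [← mul_sum, card_eq_sum_card_image β B]
    apply Nat.mul_le_mul_left
    apply sum_le_sum
    intro a _
    apply card_le_card
    intro y hy
    exact mem_filter.2 (h1 a y hy)
  refine ⟨γ, fun n => B.filter (fun y => y ∈ R (β y) ∧ γ (β y) = n), ?_, ?_, ?_, ?_⟩
  · intro a
    have hB : 0 < B.card := lt_of_le_of_lt (Nat.zero_le _) (h2 a)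
    exact Nat.le_of_mul_le_mul_right ((g1 a).trans hsum) hB
  · intro a y hy
    obtain ⟨a1, a2⟩ := h1 a y hy
    refine mem_filter.2 ⟨a1, ?_, by rw [a2]⟩
    rw [a2]; exact hy
  · intro n y hy
    exact (mem_filter.1 hy).2.2.symm
  · intro n
    refine le_trans ?_ (g2 n).1
    rw [← mul_sum]
    apply Nat.mul_le_mul_left
    refine le_trans (card_le_card ?_) card_biUnion_le
    intro y hy
    obtain ⟨a1, a2, a3⟩ := mem_filter.1 hy
    exact mem_biUnion.2 ⟨β y, mem_filter.2 ⟨mem_image_of_mem _ a1, a3⟩, a2⟩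

theorem select_aux {ι κ : Type} [DecidableEq ι] (π f : ι → ℝ) (h0 : ∀ i, 0 ≤ π i)
    (h1 : ∀ i, π i ≤ 1) (M : Finset κ) (J : κ → Finset ι) (I : Finset ι) :
    ∀ a : κ → ℝ, ∃ Z ⊆ I, ∑ m ∈ M, (if Disjoint Z (J m) then a m else 0) + ∑ i ∈ Z, f i ≤
      ∑ m ∈ M, a m * ∏ i ∈ I ∩ J m, (1 - π i) + ∑ i ∈ I, π i * f i := by
  induction I using Finset.induction_on with
  | empty => exact fun a => ⟨∅, Subset.refl _, by simp⟩
  | insert i I hi ih =>
    intro a
    obtain ⟨Z0, s0, b0⟩ := ih a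
    obtain ⟨Z1, s1, b1⟩ := ih (fun m => if i ∈ J m then 0 else a m)
    have hi1 : i ∉ Z1 := fun h => hi (s1 h)
    have e1 : ∑ m ∈ M, (if Disjoint (insert i Z1) (J m) then a m else 0) =
        ∑ m ∈ M, (if Disjoint Z1 (J m) then (if i ∈ J m then 0 else a m) else 0) := by
      apply sum_congr rfl
      intro m _
      by_cases h : i ∈ J m <;> simp [disjoint_insert_left, h]
    have e2 : ∑ m ∈ M, a m * ∏ i ∈ insert i I ∩ J m, (1 - π i) =
        π i * ∑ m ∈ M, (if i ∈ J m then 0 else a m) * ∏ i ∈ I ∩ J m, (1 - π i) +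
        (1 - π i) * ∑ m ∈ M, a m * ∏ i ∈ I ∩ J m, (1 - π i) := by
      rw [mul_sum, mul_sum, ← sum_add_distrib]
      apply sum_congr rfl
      intro m _
      by_cases h : i ∈ J m
      · rw [insert_inter_of_mem h, prod_insert (fun h' => hi (mem_inter.1 h').1), if_pos h]
        ring
      · rw [insert_inter_of_notMem h, if_neg h]
        ring
    rw [e2, sum_insert hi]
    by_cases hc : ∑ m ∈ M, a m * ∏ i ∈ I ∩ J m, (1 - π i) ≤
        ∑ m ∈ M, (if i ∈ J m then 0 else a m) * ∏ i ∈ I ∩ J m, (1 - π i) + f i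
    · refine ⟨Z0, s0.trans (subset_insert _ _), ?_⟩
      have := mul_le_mul_of_nonneg_left hc (h0 i)
      linarith
    · refine ⟨insert i Z1, insert_subset_insert _ s1, ?_⟩
      rw [e1, sum_insert hi1]
      have := mul_le_mul_of_nonneg_left (not_le.1 hc).le (sub_nonneg.2 (h1 i))
      linarith

theorem prod_le_exp {ι : Type} (u : ι → ℝ) (J : Finset ι) :
    ∏ i ∈ J, (1 - min 1 (u i)) ≤ Real.exp (-∑ i ∈ J, u i) := by
  rw [← sum_neg_distrib, Real.exp_sum]
  apply prod_le_prod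
  · intro i _
    exact sub_nonneg.2 (min_le_left _ _)
  · intro i _
    rcases le_total 1 (u i) with h | h
    · rw [min_eq_left h, sub_self]; exact (Real.exp_pos _).le
    · rw [min_eq_right h]
      have := Real.add_one_le_exp (-u i)
      linarith

theorem exp_neg_le (Q : ℕ) : Real.exp (-(Q : ℝ)) ≤ 1 / 2 ^ Q := by
  rw [Real.exp_neg, ← one_div]
  apply one_div_le_one_div_of_le (by positivity)
  have b1 : (2 : ℝ) ^ Q ≤ Real.exp 1 ^ Q := pow_le_pow_left₀ (by norm_num)
    (by have := Real.add_one_le_exp (1 : ℝ); linarith) Q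
  rwa [← Real.exp_nat_mul, mul_one] at b1

/-- Random selection of a subfamily, made deterministic. -/
theorem select {ι Y : Type} (S : Finset Y) (I : Finset ι) (u : ι → ℝ) (hu : ∀ i, 0 ≤ u i)
    (h : ι → Y → ℝ) (hh : ∀ i y, 0 ≤ h i y) (K Q : ℕ) (J : ℕ → Y → Finset ι)
    (act : ℕ → Y → Prop)
    (hJ : ∀ j < K, ∀ y ∈ S, act j y → J j y ⊆ I ∧ (Q : ℝ) ≤ ∑ i ∈ J j y, u i)
    (hb : ∀ y ∈ S, (K : ℝ) / 2 ^ Q + ∑ i ∈ I, u i * h i y ≤ 1 / 2) :
    ∃ Z ⊆ I, ∃ S' ⊆ S, S.card ≤ 2 * S'.card ∧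
      ∀ y ∈ S', (∀ j < K, act j y → ∃ z ∈ Z, z ∈ J j y) ∧ ∑ z ∈ Z, h z y < 1 := by
  classical
  obtain ⟨Z, hZ, hle⟩ := select_aux (fun i => min 1 (u i)) (fun i => ∑ y ∈ S, h i y)
    (fun i => le_min zero_le_one (hu i)) (fun i => min_le_left _ _) (S ×ˢ range K)
    (fun m => J m.2 m.1) I (fun m => if act m.2 m.1 then 1 else 0)
  set φ : Y → ℝ := fun y => ∑ j ∈ range K,
    (if Disjoint Z (J j y) then (if act j y then (1 : ℝ) else 0) else 0) + ∑ z ∈ Z, h z y with hφ
  have n1 : ∀ y j, (0 : ℝ) ≤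
      (if Disjoint Z (J j y) then (if act j y then (1 : ℝ) else 0) else 0) := by
    intro y j
    split_ifs <;> norm_num
  have n2 : ∀ y, 0 ≤ ∑ z ∈ Z, h z y := fun y => sum_nonneg fun z _ => hh z y
  have n3 : ∀ y, 0 ≤ ∑ j ∈ range K,
      (if Disjoint Z (J j y) then (if act j y then (1 : ℝ) else 0) else 0) :=
    fun y => sum_nonneg fun j _ => n1 y j
  have hsum : ∑ y ∈ S, φ y ≤ S.card / 2 := by
    have e1 : ∑ y ∈ S, φ y = ∑ m ∈ S ×ˢ range K, (if Disjoint Z (J m.2 m.1) then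
        (if act m.2 m.1 then (1 : ℝ) else 0) else 0) + ∑ i ∈ Z, ∑ y ∈ S, h i y := by
      rw [hφ, sum_add_distrib, sum_product, sum_comm (s := Z)]
    have e2 : ∑ m ∈ S ×ˢ range K, (if act m.2 m.1 then (1 : ℝ) else 0) *
        ∏ i ∈ I ∩ J m.2 m.1, (1 - min 1 (u i)) ≤ ∑ _m ∈ S ×ˢ range K, (1 : ℝ) / 2 ^ Q := by
      apply sum_le_sum
      intro m hm
      obtain ⟨m1, m2⟩ := mem_product.1 hm
      split_ifs with ha
      · obtain ⟨a1, a2⟩ := hJ m.2 (mem_range.1 m2) m.1 m1 ha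
        rw [one_mul, inter_eq_right.2 a1]
        exact (prod_le_exp u _).trans ((Real.exp_le_exp.2 (neg_le_neg a2)).trans (exp_neg_le Q))
      · rw [zero_mul]; positivity
    have e3 : ∑ i ∈ I, min 1 (u i) * ∑ y ∈ S, h i y ≤ ∑ y ∈ S, ∑ i ∈ I, u i * h i y := by
      rw [sum_comm]
      apply sum_le_sum
      intro i _
      rw [← mul_sum]
      exact mul_le_mul_of_nonneg_right (min_le_right _ _) (sum_nonneg fun y _ => hh i y)
    have e4 : ∑ y ∈ S, ((K : ℝ) / 2 ^ Q + ∑ i ∈ I, u i * h i y) ≤ ∑ _y ∈ S, (1 : ℝ) / 2 :=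
      sum_le_sum hb
    rw [sum_add_distrib] at e4
    simp only [sum_const, nsmul_eq_mul, card_product, card_range] at e2 e4
    push_cast at e2
    have e5 : (S.card : ℝ) * K * (1 / 2 ^ Q) = S.card * (K / 2 ^ Q) := by ring
    linarith
  refine ⟨Z, hZ, S.filter (fun y => φ y < 1), filter_subset _ _,
    markov S φ (fun y _ => add_nonneg (n3 y) (n2 y)) hsum, ?_⟩
  intro y hy
  have hy' : φ y < 1 := (mem_filter.1 hy).2
  refine ⟨?_, by have := n3 y; simp only [hφ] at hy'; linarith⟩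
  intro j hj ha
  by_contra hcon
  have hd : Disjoint Z (J j y) := disjoint_left.2 fun z hz hz' => hcon ⟨z, hz, hz'⟩
  have := single_le_sum (f := fun j =>
    (if Disjoint Z (J j y) then (if act j y then (1 : ℝ) else 0) else 0))
    (fun j _ => n1 y j) (mem_range.2 hj)
  simp only [hd, ha, if_true] at this
  have := n2 y
  simp only [hφ] at hy'
  linarith

/-- The number of small subsets. -/
theorem card_small {ι : Type} [DecidableEq ι] (U : Finset ι) (r : ℕ) (F : Finset (Finset ι))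
    (hF : ∀ s ∈ F, s ⊆ U ∧ s.card ≤ r) : F.card ≤ (U.card + 1) ^ r := by
  have h1 : F ⊆ (range (r + 1)).biUnion (fun i => powersetCard i U) := by
    intro s hs
    exact mem_biUnion.2 ⟨s.card, mem_range.2 (Nat.lt_succ_of_le (hF s hs).2),
      mem_powersetCard.2 ⟨(hF s hs).1, rfl⟩⟩
  refine (card_le_card h1).trans (card_biUnion_le.trans ?_)
  rw [add_pow]
  apply sum_le_sum
  intro i hi
  rw [card_powersetCard, one_pow, mul_one]
  have := Nat.choose_pos (Nat.lt_succ_iff.1 (mem_range.1 hi))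
  exact (Nat.choose_le_pow _ _).trans (Nat.le_mul_of_pos_right _ this)

theorem sum_fiber {Y γ : Type} [DecidableEq γ] (S : Finset Y) (g : Y → γ) (H : γ → ℝ) :
    ∑ y ∈ S, H (g y) / (S.filter (fun y' => g y' = g y)).card = ∑ b ∈ S.image g, H b := by
  rw [sum_comp (fun b => H b / (S.filter (fun y' => g y' = b)).card) g]
  apply sum_congr rfl
  intro b hb
  obtain ⟨y, hy, rfl⟩ := mem_image.1 hb
  have : (0 : ℝ) < (S.filter (fun y' => g y' = g y)).card := by
    have hm : y ∈ S.filter (fun y' => g y' = g y) := mem_filter.2 ⟨hy, rfl⟩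
    exact_mod_cast card_pos.2 ⟨y, hm⟩
  rw [nsmul_eq_mul]
  field_simp

end Pool.Agent.P.MP_a54059_lc.EX
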