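import Pool.Agent.P.MP_a54059_lc.EX.Basic

/-!
Tokens, covers, feasible cells and the cover lemma.
-/

namespace Pool.Agent.P.MP_a54059_lc.EX

open Finset

variable {Y : Type} [DecidableEq Y]

/-- The potential of a family of tokens at a point. -/
noncomputable def pot (μ : ℝ) (T : Finset (Finset Y × ℕ)) (y : Y) : ℝ :=
  ∑ t ∈ T with y ∈ t.1, 1 / μ ^ t.2

/-- The weighted size of a token inside `B`. -/
noncomputable def mass (B : Finset Y) (t : Finset Y × ℕ) : ℝ := 2 ^ t.2 * (t.1 ∩ B).card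

/-- The cell `c` is covered inside `B` by tokens of small total mass. -/
def Cov (B : Finset Y) (T : Finset (Finset Y × ℕ)) (τ : ℝ) (c : Y → Prop) : Prop :=
  ∃ C ⊆ T, (∀ y ∈ B, c y → ∃ t ∈ C, y ∈ t.1) ∧ ∑ t ∈ C, mass B t ≤ τ * B.card

/-- `S` is an admissible restriction of `B`, with density increments `ξ`. -/
structure Wit (μ : ℝ) (B : Finset Y) (T : Finset (Finset Y × ℕ)) (L sh th : ℕ) (δ : ℝ)
    (S : Finset Y) (ξ : Finset Y × ℕ → ℕ) : Prop where
  sub : S ⊆ B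
  big : B.card ≤ 2 ^ L * S.card
  dens : ∀ t ∈ T, (t.1 ∩ S).card * B.card ≤ 2 ^ ξ t * (t.1 ∩ B).card * S.card
  slack : ∀ y ∈ S, ∀ t ∈ T, y ∈ t.1 → ξ t ≤ t.2 + sh
  load : ∀ y ∈ S, ∑ t ∈ T with (y ∈ t.1 ∧ th < ξ t), μ ^ ξ t / μ ^ t.2 ≤ δ

/-- The cell `c` contains an admissible restriction. -/
def Feas (μ : ℝ) (B : Finset Y) (T : Finset (Finset Y × ℕ)) (L sh th : ℕ) (δ : ℝ)
    (c : Y → Prop) : Prop :=
  ∃ S ξ, (∀ y ∈ S, c y) ∧ Wit μ B T L sh th δ S ξ

theorem mass_nonneg (B : Finset Y) (t : Finset Y × ℕ) : 0 ≤ mass B t := by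
  unfold mass; positivity

theorem sum_union_le' {ι : Type} [DecidableEq ι] (s t : Finset ι) (f : ι → ℝ)
    (hf : ∀ i, 0 ≤ f i) : ∑ i ∈ s ∪ t, f i ≤ ∑ i ∈ s, f i + ∑ i ∈ t, f i := by
  have h1 := sum_union_inter (s₁ := s) (s₂ := t) (f := f)
  have h2 : 0 ≤ ∑ i ∈ s ∩ t, f i := sum_nonneg fun i _ => hf i
  linarith

theorem sum_image_le' {ι κ : Type} [DecidableEq κ] (s : Finset ι) (g : ι → κ) (f : κ → ℝ)
    (hf : ∀ i, 0 ≤ f i) : ∑ k ∈ s.image g, f k ≤ ∑ i ∈ s, f (g i) := by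
  classical
  exact sum_image_le_of_nonneg fun u _ => hf u

theorem cov_family {ι : Type} {S : Finset Y} {U : Finset (Finset Y × ℕ)} {τ : ℝ} {c : Y → Prop}
    (s : Finset ι) (f : ι → Finset Y × ℕ) (hU : ∀ i ∈ s, f i ∈ U)
    (hc : ∀ y ∈ S, c y → ∃ i ∈ s, y ∈ (f i).1) (hs : ∑ i ∈ s, mass S (f i) ≤ τ * S.card) :
    Cov S U τ c := by
  refine ⟨s.image f, ?_, ?_, (sum_image_le' s f _ (mass_nonneg S)).trans hs⟩
  · intro t ht
    obtain ⟨i, hi, rfl⟩ := mem_image.1 ht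
    exact hU i hi
  · intro y hy h
    obtain ⟨i, hi, h'⟩ := hc y hy h
    exact ⟨f i, mem_image_of_mem _ hi, h'⟩

theorem cov_union {S : Finset Y} {U : Finset (Finset Y × ℕ)} {τ τ1 τ2 : ℝ} {c c1 c2 : Y → Prop}
    (h1 : Cov S U τ1 c1) (h2 : Cov S U τ2 c2) (hc : ∀ y ∈ S, c y → c1 y ∨ c2 y)
    (hτ : τ1 + τ2 ≤ τ) : Cov S U τ c := by
  obtain ⟨C1, a1, a2, a3⟩ := h1
  obtain ⟨C2, b1, b2, b3⟩ := h2
  refine ⟨C1 ∪ C2, union_subset a1 b1, ?_, ?_⟩
  · intro y hy h
    rcases hc y hy h with h | h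
    · obtain ⟨t, ht, h'⟩ := a2 y hy h
      exact ⟨t, mem_union_left _ ht, h'⟩
    · obtain ⟨t, ht, h'⟩ := b2 y hy h
      exact ⟨t, mem_union_right _ ht, h'⟩
  · have := sum_union_le' C1 C2 _ (mass_nonneg S)
    have := mul_le_mul_of_nonneg_right hτ (Nat.cast_nonneg (α := ℝ) S.card)
    linarith

theorem pot_image_le {ι : Type} (μ : ℝ) (hμ : 0 < μ) (s : Finset ι) (f : ι → Finset Y × ℕ)
    (y : Y) : pot μ (s.image f) y ≤ ∑ i ∈ s with y ∈ (f i).1, 1 / μ ^ (f i).2 := by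
  unfold pot
  rw [filter_image]
  exact sum_image_le' _ f (fun t => 1 / μ ^ t.2) fun t => by positivity

theorem pot_union_le (μ : ℝ) (hμ : 0 < μ) (T T' : Finset (Finset Y × ℕ)) (y : Y) :
    pot μ (T ∪ T') y ≤ pot μ T y + pot μ T' y := by
  unfold pot
  rw [filter_union]
  exact sum_union_le' _ _ _ fun t => by positivity

theorem pot_nonneg (μ : ℝ) (hμ : 0 < μ) (T : Finset (Finset Y × ℕ)) (y : Y) : 0 ≤ pot μ T y :=
  sum_nonneg fun t _ => by positivity

/-- Tokens of bounded allowance through a point are few. -/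
theorem card_le_pot (μ : ℝ) (hμ : 1 ≤ μ) (T C : Finset (Finset Y × ℕ)) (y : Y) (m : ℕ)
    (hC : ∀ t ∈ C, t ∈ T ∧ y ∈ t.1 ∧ t.2 ≤ m) : (C.card : ℝ) ≤ μ ^ m * pot μ T y := by
  have hμ0 : 0 < μ := by linarith
  calc (C.card : ℝ) = ∑ _t ∈ C, (1 : ℝ) := by simp
    _ ≤ ∑ t ∈ C, μ ^ m * (1 / μ ^ t.2) := by
        apply sum_le_sum
        intro t ht
        rw [mul_one_div, le_div_iff₀ (by positivity), one_mul]
        exact pow_le_pow_right₀ hμ (hC t ht).2.2
    _ ≤ ∑ t ∈ T with y ∈ t.1, μ ^ m * (1 / μ ^ t.2) := by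
        apply sum_le_sum_of_subset_of_nonneg
        · intro t ht
          exact mem_filter.2 ⟨(hC t ht).1, (hC t ht).2.1⟩
        · intro t _ _
          positivity
    _ = _ := by rw [pot, mul_sum]

/-- Heavy cells are feasible. -/
theorem feas_of_heavy (μ : ℝ) (B : Finset Y) (T : Finset (Finset Y × ℕ)) (L sh th θ : ℕ) (δ : ℝ)
    (c : Y → Prop) [DecidablePred c] (h : B.card ≤ 2 ^ θ * (B.filter c).card) (hL : θ ≤ L)
    (hth : θ ≤ th) (hT : ∀ t ∈ T, θ ≤ t.2) (hδ : 0 ≤ δ) : Feas μ B T L sh th δ c := by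
  refine ⟨B.filter c, fun _ => θ, fun y hy => (mem_filter.1 hy).2, filter_subset _ _, ?_, ?_,
    ?_, ?_⟩
  · exact h.trans (Nat.mul_le_mul_right _ (Nat.pow_le_pow_right (by norm_num) hL))
  · intro t _
    have a1 : (t.1 ∩ B.filter c).card ≤ (t.1 ∩ B).card :=
      card_le_card (inter_subset_inter_left (filter_subset _ _))
    calc _ ≤ (t.1 ∩ B).card * (2 ^ θ * (B.filter c).card) := Nat.mul_le_mul a1 h
      _ = _ := by ring
  · intro y _ t ht _
    exact (hT t ht).trans (Nat.le_add_right _ _)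
  · intro y _
    rw [filter_false_of_mem (fun t _ h => absurd h.2 (not_lt.2 hth)), sum_empty]
    exact hδ

/-- Covered cells are not feasible. -/
theorem not_feas_of_cov (μ : ℝ) (B : Finset Y) (hB : B.Nonempty) (T : Finset (Finset Y × ℕ))
    (L sh th : ℕ) (δ τ : ℝ) (c : Y → Prop) (h : Cov B T τ c) (hτ : 2 ^ sh * τ < 1) :
    ¬ Feas μ B T L sh th δ c := by
  rintro ⟨S, ξ, hc, w⟩
  obtain ⟨C, c1, c2, c3⟩ := h
  have hBp : (0 : ℝ) < B.card := by exact_mod_cast hB.card_pos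
  have hS0 : 0 < S.card := by
    have a1 := w.big
    have := hB.card_pos
    rcases Nat.eq_zero_or_pos S.card with h | h
    · rw [h] at a1; omega
    · exact h
  have hSp : (0 : ℝ) < S.card := by exact_mod_cast hS0
  have a1 : S.card ≤ ∑ t ∈ C, (t.1 ∩ S).card := by
    refine le_trans (card_le_card ?_) card_biUnion_le
    intro y hy
    obtain ⟨t, ht, h'⟩ := c2 y (w.sub hy) (hc y hy)
    exact mem_biUnion.2 ⟨t, ht, mem_inter.2 ⟨h', hy⟩⟩
  have a2 : ∀ t ∈ C, ((t.1 ∩ S).card : ℝ) * B.card ≤ 2 ^ sh * S.card * mass B t := by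
    intro t ht
    rcases (t.1 ∩ S).eq_empty_or_nonempty with h | ⟨y, hy⟩
    · rw [h, card_empty, Nat.cast_zero, zero_mul]
      have := mass_nonneg B t
      positivity
    · have b1 := w.slack y (mem_inter.1 hy).2 t (c1 ht) (mem_inter.1 hy).1
      have b2 : ((t.1 ∩ S).card : ℝ) * B.card ≤ 2 ^ ξ t * (t.1 ∩ B).card * S.card := by
        exact_mod_cast w.dens t (c1 ht)
      have b3 : (2 : ℝ) ^ ξ t ≤ 2 ^ (t.2 + sh) := pow_le_pow_right₀ (by norm_num) b1
      calc _ ≤ _ := b2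
        _ ≤ (2 : ℝ) ^ (t.2 + sh) * (t.1 ∩ B).card * S.card := by gcongr
        _ = _ := by rw [mass, pow_add]; ring
  have a3 := sum_le_sum a2
  rw [← sum_mul, ← mul_sum] at a3
  have a4 : (S.card : ℝ) ≤ ∑ t ∈ C, ((t.1 ∩ S).card : ℝ) := by exact_mod_cast a1
  have a5 := mul_le_mul_of_nonneg_right a4 hBp.le
  have a6 := mul_le_mul_of_nonneg_left c3 (show (0 : ℝ) ≤ 2 ^ sh * S.card by positivity)
  have a7 := mul_lt_mul_of_pos_right hτ (mul_pos hSp hBp)
  nlinarith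

/-- A query has few feasible cells. -/
theorem card_feas {V : Type} [DecidableEq V] (μ : ℝ) (B : Finset Y) (hB : B.Nonempty)
    (T : Finset (Finset Y × ℕ)) (L sh th : ℕ) (δ : ℝ) (β : Y → V) (F : Finset V)
    (hF : ∀ a ∈ F, Feas μ B T L sh th δ (fun y => β y = a)) : F.card ≤ 2 ^ L := by
  have a1 : ∀ a ∈ F, B.card ≤ 2 ^ L * (B.filter (fun y => β y = a)).card := by
    intro a ha
    obtain ⟨S, ξ, hc, w⟩ := hF a ha
    refine w.big.trans (Nat.mul_le_mul_left _ (card_le_card ?_))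
    intro y hy
    exact mem_filter.2 ⟨w.sub hy, hc y hy⟩
  have a2 := sum_le_sum a1
  rw [← mul_sum, sum_const, smul_eq_mul, sum_card_fiberwise_eq_card_filter B F β] at a2
  have a3 : (B.filter (fun y => β y ∈ F)).card ≤ B.card := card_filter_le _ _
  exact Nat.le_of_mul_le_mul_right (a2.trans (Nat.mul_le_mul_left _ a3)) hB.card_pos

theorem cover_aux (μ : ℝ) (hμ : 0 < μ) (B : Finset Y) (hB : B.Nonempty)
    (T : Finset (Finset Y × ℕ)) (L sh th : ℕ) (δ D : ℝ)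
    (hD : ∀ y ∈ B, ((T.filter (fun t => y ∈ t.1)).card : ℝ) ≤ D) (i : ℕ) :
    ∀ P ⊆ B, 2 ^ L * P.card < 2 ^ i * B.card → (∀ S ⊆ P, ∀ ξ, ¬ Wit μ B T L sh th δ S ξ) →
    ∃ R ⊆ P, ∃ Z : Finset ((Finset Y × ℕ) × ℕ), 2 ^ L * R.card < B.card ∧
      (∀ z ∈ Z, z.1 ∈ T ∧ z.2 ≤ L + 1) ∧
      ∑ z ∈ Z, mass B (z.1.1, z.2) ≤ 4 * D * i * B.card ∧
      ∀ y ∈ P, y ∈ R ∨ (∃ z ∈ Z, y ∈ z.1.1 ∧ z.1.2 + sh < z.2) ∨
        δ < ∑ z ∈ Z with (y ∈ z.1.1 ∧ th < z.2), μ ^ z.2 / μ ^ z.1.2 := by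
  classical
  have hBp : (0 : ℝ) < B.card := by exact_mod_cast hB.card_pos
  have hD0 : 0 ≤ D := by
    obtain ⟨y, hy⟩ := hB
    exact le_trans (Nat.cast_nonneg _) (hD y hy)
  induction i with
  | zero =>
    intro P _ h _
    exact ⟨P, Subset.refl _, ∅, by simpa using h, by simp, by simp, fun y hy => Or.inl hy⟩
  | succ i ih =>
    intro P hP h hno
    by_cases hs : 2 ^ L * P.card < B.card
    · exact ⟨P, Subset.refl _, ∅, hs, by simp, by rw [sum_empty]; positivity,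
        fun y hy => Or.inl hy⟩
    have hs' : B.card ≤ 2 ^ L * P.card := not_lt.1 hs
    have hP0 : 0 < P.card := by
      have := hB.card_pos
      rcases Nat.eq_zero_or_pos P.card with h | h
      · rw [h] at hs'; omega
      · exact h
    have hPp : (0 : ℝ) < P.card := by exact_mod_cast hP0
    have top : ∀ t : Finset Y × ℕ, 2 * (t.1 ∩ P).card * B.card ≤
        2 ^ (L + 1) * (t.1 ∩ B).card * P.card := by
      intro t
      have a1 : (t.1 ∩ P).card ≤ (t.1 ∩ B).card := card_le_card (inter_subset_inter_left hP)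
      calc _ ≤ 2 * (t.1 ∩ B).card * (2 ^ L * P.card) :=
            Nat.mul_le_mul (Nat.mul_le_mul_left _ a1) hs'
        _ = _ := by ring
    have ex : ∀ t : Finset Y × ℕ, ∃ k, 2 * (t.1 ∩ P).card * B.card ≤
        2 ^ k * (t.1 ∩ B).card * P.card := fun t => ⟨L + 1, top t⟩
    set ξ : Finset Y × ℕ → ℕ := fun t => Nat.find (ex t) with hξ
    have x1 : ∀ t, 2 * (t.1 ∩ P).card * B.card ≤ 2 ^ ξ t * (t.1 ∩ B).card * P.card :=
      fun t => Nat.find_spec (ex t)
    have x2 : ∀ t, ξ t ≤ L + 1 := fun t => Nat.find_min' (ex t) (top t)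
    have x3 : ∀ t, 0 < ξ t → mass B (t.1, ξ t) * P.card ≤ 4 * B.card * (t.1 ∩ P).card := by
      intro t ht
      obtain ⟨k, hk⟩ : ∃ k, ξ t = k + 1 := ⟨ξ t - 1, by omega⟩
      have a1 := Nat.find_min (ex t) (show k < ξ t by omega)
      have a2 : (2 : ℝ) ^ k * (t.1 ∩ B).card * P.card ≤ 2 * (t.1 ∩ P).card * B.card := by
        exact_mod_cast (not_le.1 a1).le
      simp only [mass]
      rw [hk, pow_succ]
      linarith
    set P' := P.filter (fun y => (∀ t ∈ T, y ∈ t.1 → ξ t ≤ t.2 + sh) ∧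
      ∑ t ∈ T with (y ∈ t.1 ∧ th < ξ t), μ ^ ξ t / μ ^ t.2 ≤ δ) with hP'
    have sub : P' ⊆ P := filter_subset _ _
    have small : 2 ^ L * P'.card < 2 ^ i * B.card := by
      by_contra hc
      have hc' : 2 ^ i * B.card ≤ 2 ^ L * P'.card := not_lt.1 hc
      have a1 : P.card ≤ 2 * P'.card := by
        have b1 : 2 ^ L * P.card < 2 ^ L * (2 * P'.card) := by
          calc _ < 2 ^ (i + 1) * B.card := h
            _ = 2 * (2 ^ i * B.card) := by ring
            _ ≤ 2 * (2 ^ L * P'.card) := Nat.mul_le_mul_left _ hc'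
            _ = _ := by ring
        exact (Nat.lt_of_mul_lt_mul_left b1).le
      refine hno P' sub ξ ⟨sub.trans hP, ?_, ?_, ?_, ?_⟩
      · exact (Nat.le_mul_of_pos_left _ (Nat.two_pow_pos i)).trans hc'
      · intro t _
        have b1 : (t.1 ∩ P').card ≤ (t.1 ∩ P).card := card_le_card (inter_subset_inter_left sub)
        have b2 : 2 * ((t.1 ∩ P').card * B.card) ≤ 2 * (2 ^ ξ t * (t.1 ∩ B).card * P'.card) := by
          calc _ ≤ 2 * ((t.1 ∩ P).card * B.card) :=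
                Nat.mul_le_mul_left _ (Nat.mul_le_mul_right _ b1)
            _ = 2 * (t.1 ∩ P).card * B.card := by ring
            _ ≤ _ := x1 t
            _ ≤ 2 ^ ξ t * (t.1 ∩ B).card * (2 * P'.card) := Nat.mul_le_mul_left _ a1
            _ = _ := by ring
        omega
      · intro y hy
        exact (mem_filter.1 hy).2.1
      · intro y hy
        exact (mem_filter.1 hy).2.2
    obtain ⟨R, r1, Z, r2, r3, r4, r5⟩ := ih P' (sub.trans hP) small
      (fun S hS => hno S (hS.trans sub))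
    set Z1 := (T.filter (fun t => 0 < ξ t)).image (fun t => (t, ξ t)) with hZ1
    have m1 : ∀ t ∈ T, 0 < ξ t → (t, ξ t) ∈ Z ∪ Z1 := fun t ht h0 =>
      mem_union_right _ (mem_image.2 ⟨t, mem_filter.2 ⟨ht, h0⟩, rfl⟩)
    refine ⟨R, r1.trans sub, Z ∪ Z1, r2, ?_, ?_, ?_⟩
    · intro z hz
      rcases mem_union.1 hz with hz | hz
      · exact r3 z hz
      · obtain ⟨t, ht, rfl⟩ := mem_image.1 hz
        exact ⟨(mem_filter.1 ht).1, x2 t⟩
    · have a1 := sum_union_le' Z Z1 (fun z => mass B (z.1.1, z.2)) fun z => mass_nonneg _ _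
      have a2 := sum_image_le' (T.filter (fun t => 0 < ξ t)) (fun t => (t, ξ t))
        (fun z => mass B (z.1.1, z.2)) fun z => mass_nonneg _ _
      have a3 : ∑ t ∈ T with 0 < ξ t, mass B (t.1, ξ t) * P.card ≤
          ∑ t ∈ T, 4 * B.card * ((t.1 ∩ P).card : ℝ) := by
        calc _ ≤ ∑ t ∈ T with 0 < ξ t, 4 * B.card * ((t.1 ∩ P).card : ℝ) :=
              sum_le_sum fun t ht => x3 t (mem_filter.1 ht).2
          _ ≤ _ := sum_le_sum_of_subset_of_nonneg (filter_subset _ _) fun t _ _ => by positivity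
      have a4 : ∑ t ∈ T, (t.1 ∩ P).card = ∑ y ∈ P, (T.filter (fun t => y ∈ t.1)).card := by
        have := sum_card_bipartiteAbove_eq_sum_card_bipartiteBelow (s := T) (t := P)
          (fun t y => y ∈ t.1)
        simp only [bipartiteAbove, bipartiteBelow] at this
        rw [← this]
        apply sum_congr rfl
        intro t _
        rw [filter_mem_eq_inter, inter_comm]
      have a5 : ∑ t ∈ T, ((t.1 ∩ P).card : ℝ) ≤ P.card * D := by
        have b1 : ∑ t ∈ T, ((t.1 ∩ P).card : ℝ) =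
            ∑ y ∈ P, ((T.filter (fun t => y ∈ t.1)).card : ℝ) := by exact_mod_cast a4
        rw [b1, ← nsmul_eq_mul]
        exact sum_le_card_nsmul _ _ _ fun y hy => hD y (hP hy)
      rw [← sum_mul, ← mul_sum] at a3
      have a6 : ∑ t ∈ T with 0 < ξ t, mass B (t.1, ξ t) ≤ 4 * D * B.card := by
        apply le_of_mul_le_mul_right _ hPp
        have := mul_le_mul_of_nonneg_left a5 (show (0 : ℝ) ≤ 4 * B.card by positivity)
        linarith
      push_cast
      simp only at a1 a2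
      linarith
    · intro y hy
      by_cases hy' : y ∈ P'
      · rcases r5 y hy' with a | ⟨z, hz, a⟩ | a
        · exact Or.inl a
        · exact Or.inr (Or.inl ⟨z, mem_union_left _ hz, a⟩)
        · refine Or.inr (Or.inr (a.trans_le ?_))
          exact sum_le_sum_of_subset_of_nonneg (filter_subset_filter _ subset_union_left)
            fun z _ _ => by positivity
      · right
        rw [hP', mem_filter, not_and, not_and_or] at hy'
        rcases hy' hy with a | a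
        · push Not at a
          obtain ⟨t, t1, t2, t3⟩ := a
          exact Or.inl ⟨(t, ξ t), m1 t t1 (by omega), t2, t3⟩
        · refine Or.inr ((not_le.1 a).trans_le ?_)
          rw [← sum_image (g := fun t => (t, ξ t)) (f := fun z => μ ^ z.2 / μ ^ z.1.2)
            (fun a _ b _ h => (Prod.mk.inj h).1)]
          apply sum_le_sum_of_subset_of_nonneg
          · intro z hz
            obtain ⟨t, ht, rfl⟩ := mem_image.1 hz
            obtain ⟨t1, t2, t3⟩ := mem_filter.1 ht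
            exact mem_filter.2 ⟨m1 t t1 (by omega), t2, t3⟩
          · intro z _ _
            positivity

/-- The cover lemma. -/
theorem cover (μ : ℝ) (hμ : 0 < μ) (B : Finset Y) (hB : B.Nonempty)
    (T : Finset (Finset Y × ℕ)) (L sh th : ℕ) (δ D : ℝ)
    (hD : ∀ y ∈ B, ((T.filter (fun t => y ∈ t.1)).card : ℝ) ≤ D) (c : Y → Prop) :
    ∃ (R : Finset Y) (Z : Finset ((Finset Y × ℕ) × ℕ)), (∀ y ∈ R, y ∈ B ∧ c y) ∧
      2 ^ L * R.card < B.card ∧ (∀ z ∈ Z, z.1 ∈ T ∧ z.2 ≤ L + 1) ∧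
      ∑ z ∈ Z, mass B (z.1.1, z.2) ≤ 4 * D * (L + 1) * B.card ∧
      (¬ Feas μ B T L sh th δ c → ∀ y ∈ B, c y → y ∈ R ∨ (∃ z ∈ Z, y ∈ z.1.1 ∧ z.1.2 + sh < z.2) ∨
        δ < ∑ z ∈ Z with (y ∈ z.1.1 ∧ th < z.2), μ ^ z.2 / μ ^ z.1.2) := by
  classical
  have hD0 : 0 ≤ D := by
    obtain ⟨y, hy⟩ := hB
    exact le_trans (Nat.cast_nonneg _) (hD y hy)
  by_cases hc : Feas μ B T L sh th δ c
  · exact ⟨∅, ∅, by simp, by simpa using hB.card_pos, by simp, by rw [sum_empty]; positivity,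
      fun h => absurd hc h⟩
  obtain ⟨R, r1, Z, r2, r3, r4, r5⟩ := cover_aux μ hμ B hB T L sh th δ D hD (L + 1) (B.filter c)
    (filter_subset _ _) (by
      have a1 : (B.filter c).card ≤ B.card := card_filter_le _ _
      have a2 := Nat.mul_le_mul_left (2 ^ L) a1
      have a3 := Nat.mul_pos (Nat.two_pow_pos L) hB.card_pos
      rw [pow_succ]
      nlinarith)
    (fun S hS ξ w => hc ⟨S, ξ, fun y hy => (mem_filter.1 (hS hy)).2, w⟩)
  refine ⟨R, Z, fun y hy => mem_filter.1 (r1 hy), r2, r3, by exact_mod_cast r4, ?_⟩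
  intro _ y hy h
  exact r5 y (mem_filter.2 ⟨hy, h⟩)

end Pool.Agent.P.MP_a54059_lc.EX
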