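import Pool.Agent.P.MP_a54059_lc.EX.Main
import Pool.Agent.P.MP_a54059_lc.EQ.Maj

/-!
The finite lower bound for Majority of XORs.
-/

namespace Pool.Agent.P.MP_a54059_lc.EX

open Finset Pool.Agent.P.MP_a54059_lc.EQ

theorem finite_bound {n : ℕ} {V : Type} {K : ℕ} (α β : Fin K → (Fin n → Bool) → V)
    (b : Fin K → Bool) (d : Bool)
    (h1 : ∀ x y j, α j x = β j y → (∀ i < j, α i x ≠ β i y) →
      (b j = true ↔ n < 2 * hammingDist x y))
    (h2 : ∀ x y, (∀ i, α i x ≠ β i y) → (d = true ↔ n < 2 * hammingDist x y))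
    (p : ℕ) (hp : 1 ≤ p) (he : n < 2 ^ p) (hK : K ≤ 2 ^ p)
    (hn : 640 * (2 * (90000000000 * p ^ 10)) ^ 3 ≤ n) : False := by
  classical
  obtain ⟨A, B, J, hA0, hB0, sA, sB, hJ, inJ, sm⟩ := structure_thm p K hp hK
    (fun j x => if h : j < K then some (α ⟨j, h⟩ x) else none)
    (fun j y => if h : j < K then some (β ⟨j, h⟩ y) else none)
  obtain ⟨h, hh⟩ : ∃ h, h = 90000000000 * p ^ 10 := ⟨_, rfl⟩
  rw [← hh] at sA sB hn
  have hh1 : 1 ≤ 2 * h := Nat.pos_of_ne_zero (by rw [hh]; positivity)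
  have hAp : (0 : ℝ) < A.card := by exact_mod_cast hA0.card_pos
  have hBp : (0 : ℝ) < B.card := by exact_mod_cast hB0.card_pos
  have hs' : (4 : ℝ) ^ n ≤ 2 ^ (2 * h) * (A.card * B.card) := by
    have a1 := Nat.mul_le_mul sA sB
    simp only [Fintype.card_fun, Fintype.card_bool, Fintype.card_fin] at a1
    have a2 : 4 ^ n ≤ 2 ^ (2 * h) * (A.card * B.card) := by
      calc 4 ^ n = 2 ^ n * 2 ^ n := by rw [← mul_pow]; norm_num
        _ ≤ _ := a1
        _ = _ := by ring
    exact_mod_cast a2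
  obtain ⟨o, ho⟩ : ∃ o : Bool, ∀ x ∈ A, ∀ y ∈ B, (∀ i : Fin K, (i : ℕ) < J → α i x ≠ β i y) →
      (o = true ↔ n < 2 * hammingDist x y) := by
    rcases hJ.eq_or_lt with hj | hj
    · exact ⟨d, fun x _ y _ hi => h2 x y fun i => hi i (by rw [hj]; exact i.2)⟩
    · refine ⟨b ⟨J, hj⟩, fun x hx y hy hi => h1 x y _ ?_ fun i hlt => hi i hlt⟩
      have := inJ hj x hx y hy
      simp only [hj, dif_pos, Option.some.injEq] at this
      exact this.symm
  set f : (Fin n → Bool) → (Fin n → Bool) → ℝ := fun x y =>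
    ∑ i : Fin K, if (i : ℕ) < J ∧ β i y = α i x then 1 else 0 with hf
  have f0 : ∀ x y (i : Fin K), (0 : ℝ) ≤ if (i : ℕ) < J ∧ β i y = α i x then 1 else 0 := by
    intro x y i
    split_ifs <;> norm_num
  have key := both_signs hh1 hn A B hA0 hB0 hs' (if o then 1 else -1) (by cases o <;> simp) f
    (fun x y => sum_nonneg fun i _ => f0 x y i) (by
      intro x hx y hy hp
      by_contra hcon
      have hi : ∀ i : Fin K, (i : ℕ) < J → α i x ≠ β i y := by
        intro i hij hxy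
        have := single_le_sum (fun i _ => f0 x y i) (mem_univ i)
        rw [if_pos ⟨hij, hxy.symm⟩] at this
        exact hcon this
      have hq := ho x hx y hy hi
      rw [ip_eq] at hp
      cases o
      · have : ¬ n < 2 * hammingDist x y := fun h => by simpa using hq.2 h
        have a1 : (2 * hammingDist x y : ℝ) ≤ n := by exact_mod_cast not_lt.1 this
        simp only [Bool.false_eq_true, if_false] at hp
        linarith
      · have a1 : (n : ℝ) < 2 * hammingDist x y := by exact_mod_cast hq.1 rfl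
        simp only [if_true] at hp
        linarith)
  have row : ∀ x ∈ A, 2 ^ p * ∑ y ∈ B, f x y ≤ B.card := by
    intro x hx
    have a1 : ∀ i : Fin K, (2 : ℝ) ^ (2 * p) *
        ∑ y ∈ B, (if (i : ℕ) < J ∧ β i y = α i x then (1 : ℝ) else 0) ≤ B.card := by
      intro i
      by_cases hi : (i : ℕ) < J
      · have b1 := sm x hx i hi
        simp only [i.2, dif_pos, Option.some.injEq, Fin.eta] at b1
        simp only [hi, true_and, sum_boole]
        exact_mod_cast b1
      · simp [hi]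
    have a2 := sum_le_sum (s := univ) fun i _ => a1 i
    rw [← mul_sum, sum_comm, sum_const, card_univ, Fintype.card_fin, nsmul_eq_mul] at a2
    have a3 : (K : ℝ) ≤ 2 ^ p := by exact_mod_cast hK
    have a4 := mul_le_mul_of_nonneg_right a3 hBp.le
    apply le_of_mul_le_mul_left _ (show (0 : ℝ) < 2 ^ p by positivity)
    rw [two_mul, pow_add, mul_assoc] at a2
    exact a2.trans a4
  have a1 := sum_le_sum row
  rw [← mul_sum, sum_const, nsmul_eq_mul] at a1
  have a2 : (n : ℝ) < 2 ^ p := by exact_mod_cast he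
  have a3 : 0 < ∑ x ∈ A, ∑ y ∈ B, f x y := by
    by_contra hc
    have := mul_nonpos_of_nonneg_of_nonpos (Nat.cast_nonneg (α := ℝ) n) (not_lt.1 hc)
    have := mul_pos hAp hBp
    linarith
  have a4 := mul_lt_mul_of_pos_right a2 a3
  linarith

theorem pow_lt (p : ℕ) (hp : 512 ≤ p) : p ^ 31 < 2 ^ p := by
  have a1 : ∀ q, 9 ≤ q → 32 * (q + 1) ≤ 2 ^ q := by
    intro q hq
    induction q, hq using Nat.le_induction with
    | base => norm_num
    | succ m _ ih => rw [pow_succ]; omega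
  have a2 := a1 (p / 32) (by omega)
  calc p ^ 31 < (2 ^ (p / 32)) ^ 31 := Nat.pow_lt_pow_left (by omega) (by norm_num)
    _ ≤ _ := by
        rw [← pow_mul]
        exact Nat.pow_le_pow_right (by norm_num) (by omega)

theorem choose_p (n : ℕ) (hn : (10 ^ 47) ^ 31 ≤ n) : ∃ p : ℕ, 1 ≤ p ∧ n < 2 ^ p ∧
    640 * (2 * (90000000000 * p ^ 10)) ^ 3 ≤ n ∧ (n : ℝ) ^ ((1 : ℝ) / 31) ≤ p := by
  have ex : ∃ p, n ≤ p ^ 31 := ⟨n, Nat.le_self_pow (by norm_num) n⟩
  have a1 : n ≤ Nat.find ex ^ 31 := Nat.find_spec ex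
  have a2 : 10 ^ 47 ≤ Nat.find ex :=
    (Nat.pow_le_pow_iff_left (by norm_num)).1 (hn.trans a1)
  have a3 := Nat.find_min ex (show Nat.find ex - 1 < Nat.find ex by omega)
  generalize Nat.find ex = p at a1 a2 a3
  refine ⟨p, by omega, a1.trans_lt (pow_lt p (by omega)), ?_, ?_⟩
  · obtain ⟨q, rfl⟩ : ∃ q, p = q + 1 := ⟨p - 1, by omega⟩
    rw [Nat.add_sub_cancel] at a3
    refine le_trans ?_ (not_le.1 a3).le
    calc _ ≤ 640 * (2 * (90000000000 * (2 * q) ^ 10)) ^ 3 := by gcongr; omega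
      _ = (640 * 180000000000 ^ 3 * 2 ^ 30) * q ^ 30 := by ring
      _ ≤ q * q ^ 30 := Nat.mul_le_mul_right _ (by omega)
      _ = _ := by ring
  · have b1 : (n : ℝ) ≤ (p : ℝ) ^ 31 := by exact_mod_cast a1
    calc _ ≤ ((p : ℝ) ^ 31) ^ ((1 : ℝ) / 31) :=
          Real.rpow_le_rpow (Nat.cast_nonneg _) b1 (by norm_num)
      _ = _ := by
          rw [one_div]
          exact_mod_cast Real.pow_rpow_inv_natCast (Nat.cast_nonneg p) (show 31 ≠ 0 by norm_num)

end Pool.Agent.P.MP_a54059_lc.EX
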