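import Mathlib

/-!
Arithmetic of the parameters.
-/

namespace Pool.Agent.P.MP_a54059_lc.EX

theorem mu_pow {μ : ℝ} {Θ : ℕ} (h1 : 1 ≤ μ) (h2 : μ ^ Θ = 2) (a r : ℕ) (h : a ≤ r * Θ) :
    μ ^ a ≤ 2 ^ r := by
  calc _ ≤ μ ^ (r * Θ) := pow_le_pow_right₀ h1 h
    _ = _ := by rw [mul_comm, pow_mul, h2]

theorem exists_mu (Θ : ℕ) (h : Θ ≠ 0) : ∃ μ : ℝ, 1 ≤ μ ∧ μ ^ Θ = 2 :=
  ⟨(2 : ℝ) ^ ((Θ : ℝ)⁻¹), Real.one_le_rpow (by norm_num) (by positivity),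
    Real.rpow_inv_natCast_pow (by norm_num) h⟩

theorem poly_le (p a c k : ℕ) (hp : 1 ≤ p) (ha : a ≤ 2 ^ c) : a * p ^ k ≤ 2 ^ ((c + k) * p) := by
  have a1 : p ≤ 2 ^ p := Nat.lt_two_pow_self.le
  calc _ ≤ 2 ^ (c * p) * (2 ^ p) ^ k := Nat.mul_le_mul
        (ha.trans (Nat.pow_le_pow_right (by norm_num) (Nat.le_mul_of_pos_right _ hp)))
        (Nat.pow_le_pow_left a1 k)
    _ = _ := by rw [← pow_mul, ← pow_add]; congr 1; ring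

theorem par_tau (p K : ℕ) (hp : 1 ≤ p) (hK : K ≤ 2 ^ p) :
    8 * (K : ℝ) * ((4 + 16 * (2 ^ (3 * p) * (16000000 * (p : ℝ) ^ 6)) * ((750 * p ^ 3 : ℕ) : ℝ))
      / 2 ^ (60 * p)) ≤ 1 := by
  have a1 := poly_le p (2 ^ 41) 41 9 hp le_rfl
  have a2 : 1 ≤ 2 ^ (3 * p) * p ^ 9 := Nat.mul_pos (Nat.two_pow_pos _) (pow_pos hp _)
  have a3 : 8 * K * (4 + 16 * (2 ^ (3 * p) * (16000000 * p ^ 6)) * (750 * p ^ 3))
      ≤ 2 ^ (60 * p) := by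
    calc _ ≤ 8 * 2 ^ p * (4 * (2 ^ (3 * p) * p ^ 9) +
            16 * (2 ^ (3 * p) * (16000000 * p ^ 6)) * (750 * p ^ 3)) := by
          gcongr
          omega
      _ = 2 ^ p * 2 ^ (3 * p) * (1536000000032 * p ^ 9) := by ring
      _ ≤ 2 ^ p * 2 ^ (3 * p) * (2 ^ 41 * p ^ 9) := by gcongr; norm_num
      _ ≤ 2 ^ p * 2 ^ (3 * p) * 2 ^ ((41 + 9) * p) := Nat.mul_le_mul_left _ a1
      _ ≤ _ := by
          rw [← pow_add, ← pow_add]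
          exact Nat.pow_le_pow_right (by norm_num) (by omega)
  rw [← mul_div_assoc, div_le_one (by positivity)]
  exact_mod_cast a3

theorem par_num (p K v t u L : ℕ) (hp : 1 ≤ p) (hK : K ≤ 2 ^ p) (hL : L + 1 ≤ 750 * p ^ 3)
    (ht : t ≤ 2 ^ (p + 750 * p ^ 3 + 13 * p * v))
    (hu : u ≤ t * (1 + 750 * p ^ 3) + K * (2 ^ L + 1)) :
    u ≤ 2 ^ (p + 750 * p ^ 3 + 13 * p * (v + 1)) := by
  have a1 := poly_le p 752 10 3 hp (by norm_num)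
  have a2 : 1 ≤ p ^ 3 := Nat.one_le_pow _ _ hp
  have a3 : K * (2 ^ L + 1) ≤ 2 ^ (p + 750 * p ^ 3 + 13 * p * v) := by
    have b1 : 2 ^ L + 1 ≤ 2 ^ (L + 1) := by
      have := Nat.two_pow_pos L
      rw [pow_succ]
      omega
    calc _ ≤ 2 ^ p * 2 ^ (L + 1) := Nat.mul_le_mul hK b1
      _ ≤ _ := by
          rw [← pow_add]
          exact Nat.pow_le_pow_right (by norm_num) (by omega)
  calc u ≤ 2 ^ (p + 750 * p ^ 3 + 13 * p * v) * (1 + 750 * p ^ 3) +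
        2 ^ (p + 750 * p ^ 3 + 13 * p * v) := hu.trans (by gcongr)
    _ = 2 ^ (p + 750 * p ^ 3 + 13 * p * v) * (2 + 750 * p ^ 3) := by ring
    _ ≤ 2 ^ (p + 750 * p ^ 3 + 13 * p * v) * 2 ^ ((10 + 3) * p) :=
        Nat.mul_le_mul_left _ (by omega)
    _ = _ := by rw [← pow_add]; congr 1; ring

theorem par_cost (p v u L : ℕ) (hp : 1 ≤ p) (hv : v ≤ p) (hL : L + 1 ≤ 750 * p ^ 3)
    (hu : u ≤ 2 ^ (p + 750 * p ^ 3 + 13 * p * (v + 1))) :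
    2 ^ L * (2 * (4 * (u + 1) ^ (32000000 * p ^ 6))) ≤ 2 ^ (30000000000 * p ^ 9) := by
  have a1 : p ≤ p ^ 3 := Nat.le_self_pow (by norm_num) p
  have a2 : p * p ≤ p ^ 3 := by rw [← pow_two]; exact Nat.pow_le_pow_right hp (by norm_num)
  have a3 : p * v ≤ p * p := Nat.mul_le_mul_left _ hv
  have a4 : p ^ 3 ≤ p ^ 9 := Nat.pow_le_pow_right hp (by norm_num)
  have a5 : u + 1 ≤ 2 ^ (800 * p ^ 3) := by
    have b1 := Nat.two_pow_pos (p + 750 * p ^ 3 + 13 * p * (v + 1))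
    calc _ ≤ 2 ^ (p + 750 * p ^ 3 + 13 * p * (v + 1) + 1) := by rw [pow_succ]; omega
      _ ≤ _ := Nat.pow_le_pow_right (by norm_num) (by nlinarith)
  calc _ ≤ 2 ^ L * (2 * (4 * (2 ^ (800 * p ^ 3)) ^ (32000000 * p ^ 6))) := by gcongr
    _ = 2 ^ (L + 3 + 25600000000 * p ^ 9) := by
        rw [← pow_mul, pow_add, pow_add]
        have : 800 * p ^ 3 * (32000000 * p ^ 6) = 25600000000 * p ^ 9 := by ring
        rw [this]
        ring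
    _ ≤ _ := Nat.pow_le_pow_right (by norm_num) (by omega)

theorem par_row (p K L : ℕ) (hp : 1 ≤ p) (hK : K ≤ 2 ^ p) (hL : L + 1 ≤ 750 * p ^ 3) :
    2 * ((K + 1) * (2 ^ L * 2)) ≤ 2 ^ (30000000000 * p ^ 9) := by
  have a1 : p ≤ p ^ 3 := Nat.le_self_pow (by norm_num) p
  have a4 : p ^ 3 ≤ p ^ 9 := Nat.pow_le_pow_right hp (by norm_num)
  have a5 : K + 1 ≤ 2 ^ (p + 1) := by
    have := Nat.two_pow_pos p
    rw [pow_succ]
    omega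
  calc _ ≤ 2 * (2 ^ (p + 1) * (2 ^ L * 2)) := by gcongr
    _ = 2 ^ (p + L + 3) := by ring
    _ ≤ _ := Nat.pow_le_pow_right (by norm_num) (by omega)

end Pool.Agent.P.MP_a54059_lc.EX
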