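import Pool.Agent.P.MP_a54059_lc.EX.Cover

/-!
Conditioning on the tokens whose allowance is nearly used up.
-/

namespace Pool.Agent.P.MP_a54059_lc.EX

open Finset

variable {Y : Type} [DecidableEq Y]

theorem sum_mass_fiber {γ : Type} [DecidableEq γ] (S : Finset Y) (g : Y → γ)
    (u : Finset Y × ℕ) :
    ∑ b ∈ S.image g, mass (S.filter (fun y => g y = b)) u = mass S u := by
  unfold mass
  rw [← mul_sum]
  congr 1
  have := card_eq_sum_card_fiberwise (f := g) (s := u.1 ∩ S) (t := S.image g)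
    (fun y hy => mem_image_of_mem _ (mem_inter.1 hy).2)
  rw [this]
  push_cast
  apply sum_congr rfl
  intro b _
  rw [inter_filter]

theorem reveal {X : Type} (μ : ℝ) (hμ : 1 ≤ μ) (S : Finset Y) (hS : S.Nonempty)
    (U : Finset (Finset Y × ℕ)) (A : Finset X) (hA : A.Nonempty) (K C θ r : ℕ) (τ : ℝ)
    (hτ0 : 0 ≤ τ) (hτ : 8 * K * τ ≤ 1) (hr : ∀ y ∈ S, μ ^ (C + θ) * pot μ U y ≤ r)
    (cell : ℕ → X → Y → Prop) :
    ∃ B' ⊆ S, ∃ A' ⊆ A, ∃ T' : Finset (Finset Y × ℕ),
      S.card ≤ 4 * (U.card + 1) ^ r * B'.card ∧ A.card ≤ 2 * A'.card ∧ T'.card ≤ U.card ∧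
      (∀ t ∈ T', θ ≤ t.2 ∧ ∃ u ∈ U, t.2 + C = u.2) ∧ (∀ y, pot μ T' y ≤ μ ^ C * pot μ U y) ∧
      ∀ x ∈ A', ∀ j < K, Cov S U τ (cell j x) → Cov B' T' (1 / 2 ^ C) (cell j x) := by
  classical
  have hμ0 : 0 < μ := by linarith
  have hSp : (0 : ℝ) < S.card := by exact_mod_cast hS.card_pos
  have hAp : (0 : ℝ) < A.card := by exact_mod_cast hA.card_pos
  have ex : ∀ (x : X) (j : ℕ), ∃ D ⊆ U, ∑ t ∈ D, mass S t ≤ τ * S.card ∧
      (Cov S U τ (cell j x) → ∀ y ∈ S, cell j x y → ∃ t ∈ D, y ∈ t.1) := by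
    intro x j
    by_cases h : Cov S U τ (cell j x)
    · obtain ⟨D, d1, d2, d3⟩ := h
      exact ⟨D, d1, d3, fun _ => d2⟩
    · exact ⟨∅, empty_subset _, by rw [sum_empty]; positivity, fun h' => absurd h' h⟩
  choose D d1 d2 d3 using ex
  set rev : Y → Finset (Finset Y × ℕ) := fun y => U.filter (fun u => y ∈ u.1 ∧ u.2 < C + θ)
    with hrev
  obtain ⟨n, hn⟩ : ∃ n, n = (U.card + 1) ^ r := ⟨_, rfl⟩
  have n0 : (0 : ℝ) < n := by rw [hn]; positivity
  have n1 : (S.image rev).card ≤ n := by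
    rw [hn]
    apply card_small
    intro s hs
    obtain ⟨y, hy, rfl⟩ := mem_image.1 hs
    refine ⟨filter_subset _ _, ?_⟩
    have := (card_le_pot μ hμ U (rev y) y (C + θ) (fun t ht => by
      obtain ⟨a1, a2, a3⟩ := mem_filter.1 ht
      exact ⟨a1, a2, a3.le⟩)).trans (hr y hy)
    exact_mod_cast this
  set F : X → Finset (Finset Y × ℕ) → ℝ := fun x b =>
    ∑ j ∈ range K, ∑ u ∈ D x j, mass (S.filter (fun y => rev y = b)) u with hF
  have F0 : ∀ x b, 0 ≤ F x b := fun x b =>
    sum_nonneg fun j _ => sum_nonneg fun u _ => mass_nonneg _ _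
  have F1 : ∀ x, ∑ b ∈ S.image rev, F x b ≤ K * (τ * S.card) := by
    intro x
    simp only [hF]
    rw [sum_comm]
    calc _ ≤ ∑ _j ∈ range K, τ * S.card := by
          apply sum_le_sum
          intro j _
          rw [sum_comm]
          simp only [sum_mass_fiber]
          exact d2 x j
      _ = _ := by simp
  set H : Finset (Finset Y × ℕ) → ℝ := fun b => S.card / (4 * n) + 2 / A.card * ∑ x ∈ A, F x b
    with hH
  have H0 : ∀ b, 0 ≤ H b := fun b => by
    have := sum_nonneg (s := A) fun x _ => F0 x b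
    simp only [hH]
    positivity
  have H1 : ∑ y ∈ S, H (rev y) / (S.filter (fun y' => rev y' = rev y)).card ≤ S.card / 2 := by
    rw [sum_fiber]
    simp only [hH]
    rw [sum_add_distrib, ← mul_sum, sum_comm, sum_const, nsmul_eq_mul]
    have a1 : ((S.image rev).card : ℝ) * (S.card / (4 * n)) ≤ S.card / 4 := by
      have b1 : ((S.image rev).card : ℝ) ≤ n := by exact_mod_cast n1
      calc _ ≤ (n : ℝ) * (S.card / (4 * n)) := by gcongr
        _ = _ := by field_simp
    have a2 : ∑ x ∈ A, ∑ b ∈ S.image rev, F x b ≤ A.card * (K * (τ * S.card)) := by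
      rw [← nsmul_eq_mul]
      exact sum_le_card_nsmul _ _ _ fun x _ => F1 x
    have a3 : 2 / (A.card : ℝ) * ∑ x ∈ A, ∑ b ∈ S.image rev, F x b ≤ S.card / 4 := by
      calc _ ≤ 2 / (A.card : ℝ) * (A.card * (K * (τ * S.card))) := by gcongr
        _ = (8 * K * τ) * S.card / 4 := by field_simp; ring
        _ ≤ 1 * S.card / 4 := by gcongr
        _ = _ := by ring
    linarith
  have m1 := markov S _ (fun y _ => div_nonneg (H0 _) (Nat.cast_nonneg _)) H1
  obtain ⟨y0, hy0⟩ : (S.filter (fun y =>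
      H (rev y) / (S.filter (fun y' => rev y' = rev y)).card < 1)).Nonempty := by
    rw [← card_pos]
    have := hS.card_pos
    omega
  obtain ⟨y1, y2⟩ := mem_filter.1 hy0
  set B' := S.filter (fun y' => rev y' = rev y0) with hB'
  have hB0 : y0 ∈ B' := mem_filter.2 ⟨y1, rfl⟩
  have hBp : (0 : ℝ) < B'.card := by exact_mod_cast card_pos.2 ⟨y0, hB0⟩
  rw [div_lt_one hBp] at y2
  simp only [hH] at y2
  have s0 := sum_nonneg (s := A) fun x _ => F0 x (rev y0)
  have s1 : (0 : ℝ) ≤ 2 / A.card * ∑ x ∈ A, F x (rev y0) := by positivity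
  have s2 : (0 : ℝ) ≤ S.card / (4 * n) := by positivity
  have s3 : ∑ x ∈ A, F x (rev y0) / B'.card ≤ A.card / 2 := by
    rw [← sum_div, div_le_iff₀ hBp]
    have a1 : 2 / A.card * ∑ x ∈ A, F x (rev y0) ≤ B'.card := by linarith
    rw [div_mul_eq_mul_div, div_le_iff₀ hAp] at a1
    linarith
  have m2 := markov A _ (fun x _ => div_nonneg (F0 x _) (Nat.cast_nonneg _)) s3
  refine ⟨B', filter_subset _ _, _, filter_subset _ _,
    (U.filter (fun u => C + θ ≤ u.2)).image (fun u => (u.1, u.2 - C)), ?_, m2,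
    card_image_le.trans (card_filter_le _ _), ?_, ?_, ?_⟩
  · have a1 : (S.card : ℝ) / (4 * n) ≤ B'.card := by linarith
    rw [div_le_iff₀ (by positivity)] at a1
    rw [← hn]
    have a2 : (S.card : ℝ) ≤ 4 * n * B'.card := by linarith
    exact_mod_cast a2
  · intro t ht
    obtain ⟨u, hu, rfl⟩ := mem_image.1 ht
    obtain ⟨a1, a2⟩ := mem_filter.1 hu
    exact ⟨by simp only; omega, u, a1, by simp only; omega⟩
  · intro y
    refine (pot_image_le μ hμ0 _ _ y).trans ?_
    rw [pot, mul_sum]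
    calc _ = ∑ u ∈ (U.filter (fun u => C + θ ≤ u.2)) with y ∈ u.1, μ ^ C * (1 / μ ^ u.2) := by
          apply sum_congr rfl
          intro u hu
          have a1 := (mem_filter.1 (mem_filter.1 hu).1).2
          obtain ⟨k, hk⟩ : ∃ k, u.2 = C + k := ⟨u.2 - C, by omega⟩
          simp only [hk, Nat.add_sub_cancel_left, pow_add]
          field_simp
      _ ≤ _ := sum_le_sum_of_subset_of_nonneg (filter_subset_filter _ (filter_subset _ _))
          fun u _ _ => by positivity
  · intro x hx j hj hc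
    have x1 : F x (rev y0) / B'.card < 1 := (mem_filter.1 hx).2
    rw [div_lt_one hBp] at x1
    have x2 : ∑ u ∈ D x j, mass B' u < B'.card := by
      refine lt_of_le_of_lt ?_ x1
      exact single_le_sum (f := fun j => ∑ u ∈ D x j, mass B' u)
        (fun j _ => sum_nonneg fun u _ => mass_nonneg _ _) (mem_range.2 hj)
    refine cov_family ((D x j).filter (fun u => C + θ ≤ u.2)) (fun u => (u.1, u.2 - C)) ?_ ?_ ?_
    · intro u hu
      obtain ⟨a1, a2⟩ := mem_filter.1 hu
      exact mem_image_of_mem _ (mem_filter.2 ⟨d1 x j a1, a2⟩)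
    · intro y hy hcy
      obtain ⟨u, u1, u2⟩ := d3 x j hc y (mem_filter.1 hy).1 hcy
      refine ⟨u, mem_filter.2 ⟨u1, ?_⟩, u2⟩
      by_contra hlt
      have a1 : u ∈ rev y := mem_filter.2 ⟨d1 x j u1, u2, not_le.1 hlt⟩
      have a2 : B' ⊆ u.1 := by
        intro y' hy'
        rw [(mem_filter.1 hy).2, ← (mem_filter.1 hy').2] at a1
        exact (mem_filter.1 a1).2.1
      have a3 := single_le_sum (f := fun u => mass B' u) (fun u _ => mass_nonneg _ _) u1
      have a4 : (B'.card : ℝ) ≤ mass B' u := by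
        rw [mass, inter_eq_right.2 a2]
        exact le_mul_of_one_le_left hBp.le (one_le_pow₀ (by norm_num))
      linarith
    · calc _ = ∑ u ∈ (D x j) with C + θ ≤ u.2, 1 / 2 ^ C * mass B' u := by
            apply sum_congr rfl
            intro u hu
            have a1 := (mem_filter.1 hu).2
            obtain ⟨k, hk⟩ : ∃ k, u.2 = C + k := ⟨u.2 - C, by omega⟩
            simp only [mass, hk, Nat.add_sub_cancel_left, pow_add]
            field_simp
        _ ≤ ∑ u ∈ D x j, 1 / 2 ^ C * mass B' u :=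
            sum_le_sum_of_subset_of_nonneg (filter_subset _ _) fun u _ _ => by
              have := mass_nonneg B' u
              positivity
        _ ≤ _ := by
            rw [← mul_sum]
            exact mul_le_mul_of_nonneg_left x2.le (by positivity)

end Pool.Agent.P.MP_a54059_lc.EX
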