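import Pool.Agent.P.MP_a54059_lc.EX.Restrict
import Pool.Agent.P.MP_a54059_lc.EX.Reveal
import Pool.Agent.P.MP_a54059_lc.EX.Param

/-!
The structure theorem for decision lists of equality queries.
-/

namespace Pool.Agent.P.MP_a54059_lc.EX

open Finset

variable {X Y V : Type} [DecidableEq Y] [DecidableEq V] [Fintype X] [Fintype Y]

open Classical in
/-- The invariant of round `v`. -/
structure Inv (μ : ℝ) (p K : ℕ) (α : ℕ → X → V) (β : ℕ → Y → V) (v : ℕ) (A : Finset X)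
    (B : Finset Y) (J : ℕ) (T : Finset (Finset Y × ℕ)) : Prop where
  hA : A.Nonempty
  hB : B.Nonempty
  sA : Fintype.card X ≤ 2 ^ (30000000000 * p ^ 9 * v) * A.card
  sB : Fintype.card Y ≤ 2 ^ (30000000000 * p ^ 9 * v) * B.card
  hJ : J ≤ K
  inJ : J < K → ∀ x ∈ A, ∀ y ∈ B, β J y = α J x
  allow : ∀ t ∈ T, 2 * p ≤ t.2 ∧ t.2 ≤ 750 * p ^ 3
  pot : ∀ y ∈ B, pot μ T y ≤ μ ^ (122 * p * v) * (v * (4000000 * (p : ℝ) ^ 5))
  num : T.card ≤ 2 ^ (p + 750 * p ^ 3 + 13 * p * v)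
  unc : ∀ x ∈ A, ((range J).filter
    (fun j => ¬ Cov B T (1 / 2 ^ (120 * p)) (fun y => β j y = α j x))).card * 2 ^ v ≤ 2 ^ p

/-- The conclusion of the structure theorem. -/
def Done (p K : ℕ) (α : ℕ → X → V) (β : ℕ → Y → V) (h : ℕ) : Prop :=
  ∃ (A : Finset X) (B : Finset Y) (J : ℕ), A.Nonempty ∧ B.Nonempty ∧
    Fintype.card X ≤ 2 ^ h * A.card ∧ Fintype.card Y ≤ 2 ^ h * B.card ∧ J ≤ K ∧
    (J < K → ∀ x ∈ A, ∀ y ∈ B, β J y = α J x) ∧
    ∀ x ∈ A, ∀ j < J, 2 ^ (2 * p) * (B.filter (fun y => β j y = α j x)).card ≤ B.card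

theorem psi_le {μ : ℝ} {p : ℕ} (hp : 1 ≤ p) (h1 : 1 ≤ μ) (h2 : μ ^ (250 * p ^ 2) = 2) (v : ℕ)
    (hv : v ≤ p + 1) : μ ^ (122 * p * v) * (v * (4000000 * (p : ℝ) ^ 5)) ≤
      16000000 * (p : ℝ) ^ 6 := by
  have a1 : μ ^ (122 * p * v) ≤ 2 ^ 1 := mu_pow h1 h2 _ 1 (by nlinarith)
  have a2 : (v : ℝ) ≤ 2 * p := by
    have : v ≤ 2 * p := by omega
    exact_mod_cast this
  calc _ ≤ (2 : ℝ) ^ 1 * (2 * p * (4000000 * (p : ℝ) ^ 5)) := by gcongr
    _ = _ := by ring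

theorem le_cost {n a a' c v k : ℕ} (h1 : n ≤ 2 ^ (c * v) * a) (h2 : a ≤ k * a') (h3 : k ≤ 2 ^ c) :
    n ≤ 2 ^ (c * (v + 1)) * a' := by
  calc n ≤ 2 ^ (c * v) * (2 ^ c * a') :=
        h1.trans (Nat.mul_le_mul_left _ (h2.trans (Nat.mul_le_mul_right _ h3)))
    _ = _ := by ring

omit [DecidableEq V] in
open Classical in
theorem advance {μ : ℝ} {p K : ℕ} (hp : 1 ≤ p) (hK : K ≤ 2 ^ p) (h1 : 1 ≤ μ)
    (h2 : μ ^ (250 * p ^ 2) = 2) {α : ℕ → X → V} {β : ℕ → Y → V} {v : ℕ} {A : Finset X}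
    {B : Finset Y} {J : ℕ} {T : Finset (Finset Y × ℕ)} (I : Inv μ p K α β v A B J T)
    (hv : v ≤ p) (L sh : ℕ) (δ δ' : ℝ) (hL : L + (250 * p ^ 3 + 60 * p) + 2 ≤ 750 * p ^ 3)
    (hsh : sh ≤ 60 * p) (d0 : 0 ≤ δ) (d1 : δ ≤ 1000000 * (p : ℝ) ^ 5)
    (d2 : 1000000 * (p : ℝ) ^ 5 ≤ δ') (d3 : 48000 * (p : ℝ) ^ 4 * δ ≤ δ')
    (A1 : Finset X) (hA1 : A1.Nonempty) (sA : A.card ≤ 2 * ((K + 1) * (2 ^ L * A1.card)))
    (j0 : ℕ) (hj0 : j0 < J) (a : V) (ha : ∀ x ∈ A1, α j0 x = a)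
    (hf : Feas μ B T L sh (2 * p + sh) δ (fun y => β j0 y = a))
    (hu : ∀ x ∈ A1, ((range j0).filter (fun j =>
      ¬ Cov B T (1 / 2 ^ (120 * p)) (fun y => β j y = α j x) ∧
      Feas μ B T (L + (250 * p ^ 3 + 60 * p)) (sh + 60 * p) (2 * p + sh + 60 * p) δ'
        (fun y => β j y = α j x))).card * 2 ^ (v + 1) ≤ 2 ^ p) :
    ∃ A' B' T', Inv μ p K α β (v + 1) A' B' j0 T' := by
  obtain ⟨S, ξ, hS, w⟩ := hf
  have hμ0 : 0 < μ := by linarith
  have hp' : (1 : ℝ) ≤ p := by exact_mod_cast hp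
  have q1 : p ≤ p ^ 2 := Nat.le_self_pow (by norm_num) p
  have q2 : p ≤ p ^ 3 := Nat.le_self_pow (by norm_num) p
  have q3 : (1 : ℝ) ≤ (p : ℝ) ^ 5 := one_le_pow₀ hp'
  have q4 : (p : ℝ) ^ 4 ≤ (p : ℝ) ^ 5 := pow_le_pow_right₀ hp' (by norm_num)
  obtain ⟨Ψ, hΨ⟩ : ∃ Ψ, Ψ = μ ^ (122 * p * v) * (v * (4000000 * (p : ℝ) ^ 5)) := ⟨_, rfl⟩
  have Ψ0 : 0 ≤ Ψ := by rw [hΨ]; positivity
  have Ψ1 : Ψ ≤ 16000000 * (p : ℝ) ^ 6 := hΨ ▸ psi_le hp h1 h2 v (by omega)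
  have Ψ2 : ∀ y ∈ B, pot μ T y ≤ Ψ := hΨ ▸ I.pot
  have hjK : j0 < K := hj0.trans_le I.hJ
  obtain ⟨τ, hτ⟩ : ∃ τ : ℝ, τ = (4 + 16 * (2 ^ (3 * p) * (16000000 * (p : ℝ) ^ 6)) *
    ((750 * p ^ 3 : ℕ) : ℝ)) / 2 ^ (60 * p) := ⟨_, rfl⟩
  have τ0 : 0 ≤ τ := by rw [hτ]; positivity
  obtain ⟨S', s1, U, s2, s3, s4, s5, s6, s7⟩ := restrict μ h1 B I.hB T β K L
    (250 * p ^ 3 + 60 * p) sh (2 * p) (60 * p) (4 * p) (750 * p ^ 3) (250 * p ^ 3) δ δ'
    (2 ^ (3 * p) * (16000000 * (p : ℝ) ^ 6)) Ψ (198000 * (p : ℝ) ^ 5) (1 / 2 ^ (120 * p)) τ S ξ w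
    (by
      intro y hy
      refine (card_le_pot μ h1 T _ y (750 * p ^ 3) (fun t ht =>
        ⟨(mem_filter.1 ht).1, (mem_filter.1 ht).2, (I.allow t (mem_filter.1 ht).1).2⟩)).trans ?_
      exact mul_le_mul (mu_pow h1 h2 _ _ (le_of_eq (by ring))) ((Ψ2 y hy).trans Ψ1)
        (pot_nonneg μ hμ0 T y) (by positivity))
    Ψ2 ((mu_pow h1 h2 _ 1 (by omega)).trans (by norm_num))
    (by
      calc 8 * K ≤ 2 ^ 3 * 2 ^ p := Nat.mul_le_mul (by norm_num) hK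
        _ ≤ _ := by
          rw [← pow_add]
          exact Nat.pow_le_pow_right (by norm_num) (by omega))
    hL d0 (by linarith) (le_trans (le_of_eq (by push_cast; ring)) d3) (by positivity)
    (by
      have a1 : μ ^ (2 * p + sh) ≤ 2 ^ 1 := mu_pow h1 h2 _ 1 (by omega)
      have a2 : μ ^ (2 * p + sh) * Ψ ≤ 2 ^ 1 * (16000000 * (p : ℝ) ^ 6) := by gcongr
      have a3 : (p : ℝ) ^ 5 ≤ (p : ℝ) ^ 6 := pow_le_pow_right₀ hp' (by norm_num)
      calc _ = 6000 * (p : ℝ) ^ 4 * (μ ^ (2 * p + sh) * Ψ + δ) := by push_cast; ring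
        _ ≤ 6000 * (p : ℝ) ^ 4 * (33000000 * (p : ℝ) ^ 6) := by gcongr; linarith
        _ = 198000 * (p : ℝ) ^ 5 * (1000000 * (p : ℝ) ^ 5) := by ring
        _ ≤ _ := by gcongr)
    (by
      have a1 : μ ^ (250 * p ^ 3) = 2 ^ p := by
        rw [← h2, ← pow_mul]; congr 1; ring
      rw [a1]
      exact_mod_cast hK)
    le_rfl
    (by
      have a1 : (2 : ℝ) ^ sh ≤ 2 ^ (60 * p) := pow_le_pow_right₀ (by norm_num) hsh
      have a2 : (0 : ℝ) ≤ 16 * (2 ^ (3 * p) * (16000000 * (p : ℝ) ^ 6)) *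
        ((750 * p ^ 3 : ℕ) : ℝ) := by positivity
      calc _ ≤ 2 * ((2 : ℝ) ^ (60 * p) * (1 / 2 ^ (120 * p))) := by gcongr
        _ = 2 / 2 ^ (60 * p) := by
            rw [show 120 * p = 60 * p + 60 * p by ring, pow_add]
            field_simp
        _ ≤ _ := by rw [hτ]; gcongr; linarith)
    hτ.ge
  have hS0 : 0 < S'.card := by
    have a1 := w.big
    have a2 := I.hB.card_pos
    rcases Nat.eq_zero_or_pos S'.card with h | h
    · have : S.card = 0 := by omega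
      rw [this] at a1
      omega
    · exact h
  have key : μ ^ (120 * p) * (μ ^ (2 * p) * Ψ + δ + 4 * (198000 * (p : ℝ) ^ 5) + 1) ≤
      μ ^ (122 * p * (v + 1)) * (((v + 1 : ℕ) : ℝ) * (4000000 * (p : ℝ) ^ 5)) := by
    have a1 : μ ^ (120 * p) ≤ 2 ^ 1 := mu_pow h1 h2 _ 1 (by omega)
    have a2 : μ ^ (120 * p) * (δ + 4 * (198000 * (p : ℝ) ^ 5) + 1) ≤
        2 ^ 1 * (2000000 * (p : ℝ) ^ 5) := by gcongr; linarith
    have a3 : 4000000 * (p : ℝ) ^ 5 ≤ μ ^ (122 * p * (v + 1)) * (4000000 * (p : ℝ) ^ 5) :=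
      le_mul_of_one_le_left (by positivity) (one_le_pow₀ h1)
    have a4 : μ ^ (122 * p * (v + 1)) = μ ^ (120 * p) * (μ ^ (2 * p) * μ ^ (122 * p * v)) := by
      rw [← pow_add, ← pow_add]; congr 1; ring
    have a5 : μ ^ (120 * p) * (μ ^ (2 * p) * Ψ) =
        μ ^ (122 * p * (v + 1)) * (v * (4000000 * (p : ℝ) ^ 5)) := by rw [a4, hΨ]; ring
    push_cast
    linarith
  have key2 : ∀ y ∈ S', μ ^ (120 * p) * pot μ U y ≤
      μ ^ (122 * p * (v + 1)) * (((v + 1 : ℕ) : ℝ) * (4000000 * (p : ℝ) ^ 5)) := fun y hy =>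
    (mul_le_mul_of_nonneg_left (s5 y hy) (by positivity)).trans key
  obtain ⟨B', b1, A', b2, T', b3, b4, b5, b6, b7, b8⟩ := reveal μ h1 S' (card_pos.1 hS0) U A1 hA1
    K (120 * p) (2 * p) (32000000 * p ^ 6) τ τ0 (hτ ▸ par_tau p K hp hK)
    (by
      intro y hy
      have a1 : μ ^ (2 * p) ≤ 2 ^ 1 := mu_pow h1 h2 _ 1 (by omega)
      have a2 := (key2 y hy).trans (psi_le hp h1 h2 (v + 1) (by omega))
      have a3 := pot_nonneg μ hμ0 U y
      calc _ = μ ^ (2 * p) * (μ ^ (120 * p) * pot μ U y) := by rw [pow_add]; ring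
        _ ≤ 2 ^ 1 * (16000000 * (p : ℝ) ^ 6) := by gcongr
        _ = _ := by push_cast; ring)
    (fun j x y => β j y = α j x)
  have hU := par_num p K v T.card U.card _ hp hK (by omega) I.num s3
  refine ⟨A', B', T', ?_, ?_, ?_, ?_, hjK.le, ?_, ?_, ?_, b5.trans hU, ?_⟩
  · rw [← card_pos]
    have := hA1.card_pos
    omega
  · rw [← card_pos]
    rcases Nat.eq_zero_or_pos B'.card with h | h
    · rw [h] at b3; omega
    · exact h
  · refine le_cost I.sA ?_ (par_row p K L hp hK (by omega))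
    calc _ ≤ _ := sA
      _ ≤ 2 * ((K + 1) * (2 ^ L * (2 * A'.card))) := by gcongr
      _ = _ := by ring
  · refine le_cost I.sB ?_ (par_cost p v U.card L hp hv (by omega) hU)
    calc _ ≤ _ := w.big
      _ ≤ 2 ^ L * (2 * S'.card) := by gcongr
      _ ≤ 2 ^ L * (2 * (4 * (U.card + 1) ^ (32000000 * p ^ 6) * B'.card)) := by gcongr
      _ = _ := by ring
  · intro _ x hx y hy
    rw [ha x (b2 hx)]
    exact hS y (s1 (b1 hy))
  · intro t ht
    obtain ⟨c1, u, c2, c3⟩ := b6 t ht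
    refine ⟨c1, ?_⟩
    rcases s4 u c2 with ⟨t0, c4, c5⟩ | c4 | c4
    · have := (I.allow t0 c4).2
      omega
    · omega
    · omega
  · intro y hy
    exact (b7 y).trans (key2 y (b1 hy))
  · intro x hx
    refine le_trans (Nat.mul_le_mul_right _ (card_le_card ?_)) (hu x (b2 hx))
    intro j hj
    obtain ⟨c1, c2⟩ := mem_filter.1 hj
    have c3 : j < K := (mem_range.1 c1).trans hjK
    refine mem_filter.2 ⟨c1, fun h => c2 (b8 x hx j c3 (s6 _ h)), ?_⟩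
    by_contra h
    exact c2 (b8 x hx j c3 (s7 j c3 _ h))

theorem step {μ : ℝ} {p K : ℕ} (hp : 1 ≤ p) (hK : K ≤ 2 ^ p) (h1 : 1 ≤ μ)
    (h2 : μ ^ (250 * p ^ 2) = 2) {α : ℕ → X → V} {β : ℕ → Y → V} {v : ℕ} {A : Finset X}
    {B : Finset Y} {J : ℕ} {T : Finset (Finset Y × ℕ)} (I : Inv μ p K α β v A B J T) :
    Done p K α β (30000000000 * p ^ 9 * (v + 1)) ∨
      (v ≤ p ∧ ∃ A' B' J' T', Inv μ p K α β (v + 1) A' B' J' T') := by
  classical
  have hp' : (1 : ℝ) ≤ p := by exact_mod_cast hp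
  have q2 : p ≤ p ^ 3 := Nat.le_self_pow (by norm_num) p
  set δ : ℕ → ℝ := fun b =>
    1000000 * (p : ℝ) ^ 5 * (48000 * (p : ℝ) ^ 4) ^ b / (48000 * (p : ℝ) ^ 4) with hδ
  set F : ℕ → ℕ → V → Prop := fun b j a => Feas μ B T (2 * p + b * (250 * p ^ 3 + 60 * p))
    (b * (60 * p)) (2 * p + b * (60 * p)) (δ b) (fun y => β j y = a) with hF
  set C : X → Finset ℕ := fun x => (range J).filter
    (fun j => ¬ Cov B T (1 / 2 ^ (120 * p)) (fun y => β j y = α j x)) with hC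
  have ex1 : ∀ x, ∃ b ≤ 1, 2 * ((C x).filter
      (fun j => F (b + 1) j (α j x) ∧ ¬ F b j (α j x))).card ≤ (C x).card := by
    intro x
    have a1 := card_filter_add_card_filter_not (s := C x) (fun j => F 1 j (α j x))
    have a2 : ((C x).filter (fun j => F (0 + 1) j (α j x) ∧ ¬ F 0 j (α j x))).card ≤
        ((C x).filter (fun j => F 1 j (α j x))).card :=
      card_le_card (monotone_filter_right _ fun j _ h => h.1)
    have a3 : ((C x).filter (fun j => F (1 + 1) j (α j x) ∧ ¬ F 1 j (α j x))).card ≤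
        ((C x).filter (fun j => ¬ F 1 j (α j x))).card :=
      card_le_card (monotone_filter_right _ fun j _ h => h.2)
    by_cases h : 2 * ((C x).filter (fun j => F 1 j (α j x))).card ≤ (C x).card
    · exact ⟨0, by norm_num, by omega⟩
    · exact ⟨1, le_rfl, by omega⟩
  choose bb e1 e2 using ex1
  obtain ⟨x1, x1A, p1⟩ := popular A I.hA bb 2 (by
    refine (card_le_card (t := range 2) ?_).trans (card_range 2).le
    intro b hb
    obtain ⟨x, -, rfl⟩ := mem_image.1 hb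
    exact mem_range.2 (Nat.lt_succ_of_le (e1 x)))
  obtain ⟨b, hb⟩ : ∃ b, bb x1 = b := ⟨_, rfl⟩
  have hb1 : b ≤ 1 := hb ▸ e1 x1
  have ne1 : (A.filter (fun x => bb x = bb x1)).Nonempty := ⟨x1, mem_filter.2 ⟨x1A, rfl⟩⟩
  rw [hb] at p1 ne1
  have ex2 : ∀ x, ∃ m ≤ J, (∀ j < m, ¬ F b j (α j x)) ∧ (m < J → F b m (α m x)) := by
    intro x
    have ex : ∃ j, j = J ∨ F b j (α j x) := ⟨J, Or.inl rfl⟩
    refine ⟨Nat.find ex, Nat.find_min' ex (Or.inl rfl),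
      fun j hj h => Nat.find_min ex hj (Or.inr h), fun h => ?_⟩
    exact (Nat.find_spec ex).resolve_left h.ne
  choose mm f1 f2 f3 using ex2
  obtain ⟨x2, x2A, p2⟩ := popular _ ne1 mm (K + 1) (by
    refine (card_le_card (t := range (K + 1)) ?_).trans (card_range _).le
    intro b hb
    obtain ⟨x, -, rfl⟩ := mem_image.1 hb
    exact mem_range.2 (Nat.lt_succ_of_le ((f1 x).trans I.hJ)))
  obtain ⟨j0, hj0⟩ : ∃ j0, mm x2 = j0 := ⟨_, rfl⟩
  have ne2 : ((A.filter (fun x => bb x = b)).filter (fun x => mm x = mm x2)).Nonempty :=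
    ⟨x2, mem_filter.2 ⟨x2A, rfl⟩⟩
  rw [hj0] at p2 ne2
  set A2 := (A.filter (fun x => bb x = b)).filter (fun x => mm x = j0) with hA2
  have m2 : ∀ x ∈ A2, x ∈ A ∧ bb x = b ∧ mm x = j0 := fun x hx =>
    ⟨(mem_filter.1 (mem_filter.1 hx).1).1, (mem_filter.1 (mem_filter.1 hx).1).2,
      (mem_filter.1 hx).2⟩
  have δ0 : 0 ≤ δ b := by simp only [hδ]; positivity
  have hL : 2 * p + b * (250 * p ^ 3 + 60 * p) + (250 * p ^ 3 + 60 * p) + 2 ≤ 750 * p ^ 3 := by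
    have := Nat.mul_le_mul_right (250 * p ^ 3 + 60 * p) hb1
    omega
  have hsh : b * (60 * p) ≤ 60 * p := by
    have := Nat.mul_le_mul_right (60 * p) hb1
    omega
  rcases (hj0 ▸ f1 x2 : j0 ≤ J).eq_or_lt with hJ | hJ
  · left
    refine ⟨A2, B, J, ne2, I.hB, ?_, ?_, I.hJ, fun h x hx => I.inJ h x (m2 x hx).1, ?_⟩
    · refine le_cost I.sA ?_ (par_row p K 0 hp hK (by omega))
      calc _ ≤ _ := p1
        _ ≤ 2 * ((K + 1) * A2.card) := by gcongr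
        _ ≤ 2 * ((K + 1) * (2 * A2.card)) := by gcongr; omega
        _ = _ := by ring
    · exact le_cost (k := 1) I.sB (by omega) Nat.one_le_two_pow
    · intro x hx j hj
      by_contra hc
      refine f2 x j (by rw [(m2 x hx).2.2, hJ]; exact hj) ?_
      exact feas_of_heavy μ B T _ _ _ (2 * p) _ _ (not_le.1 hc).le (Nat.le_add_right _ _)
        (Nat.le_add_right _ _) (fun t ht => (I.allow t ht).1) δ0
  right
  have m3 : ∀ x ∈ A2, F b j0 (α j0 x) := fun x hx => by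
    have := f3 x
    rw [(m2 x hx).2.2] at this
    exact this hJ
  obtain ⟨x3, x3A, p3⟩ := popular A2 ne2 (α j0) _ (card_feas μ B I.hB T _ _ _ _ (β j0) _ (by
    intro a ha
    obtain ⟨x, hx, rfl⟩ := mem_image.1 ha
    exact m3 x hx))
  have hv : v ≤ p := by
    have a1 : j0 ∈ C x3 := by
      refine mem_filter.2 ⟨mem_range.2 hJ, fun h => ?_⟩
      refine not_feas_of_cov μ B I.hB T _ _ _ _ _ _ h ?_ (m3 x3 x3A)
      rw [mul_one_div, div_lt_one (by positivity)]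
      exact pow_lt_pow_right₀ (by norm_num) (by omega)
    have a2 := I.unc x3 (m2 x3 x3A).1
    have a3 : 1 ≤ (C x3).card := card_pos.2 ⟨j0, a1⟩
    have a4 : 2 ^ v ≤ 2 ^ p := le_trans (Nat.le_mul_of_pos_left _ a3) a2
    exact (Nat.pow_le_pow_iff_right (by norm_num)).1 a4
  have G1 : (1 : ℝ) ≤ 48000 * (p : ℝ) ^ 4 := by
    have : (1 : ℝ) ≤ (p : ℝ) ^ 4 := one_le_pow₀ hp'
    linarith
  obtain ⟨A', B', T', I'⟩ := advance hp hK h1 h2 I hv _ _ (δ b) (δ (b + 1)) hL hsh δ0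
    (by
      simp only [hδ]
      rw [div_le_iff₀ (by positivity)]
      have := pow_le_pow_right₀ G1 hb1
      rw [pow_one] at this
      gcongr)
    (by
      simp only [hδ]
      rw [le_div_iff₀ (by positivity)]
      have := pow_le_pow_right₀ G1 (show 1 ≤ b + 1 by omega)
      rw [pow_one] at this
      gcongr)
    (by
      simp only [hδ]
      apply le_of_eq
      rw [pow_succ _ b]
      field_simp)
    (A2.filter (fun x => α j0 x = α j0 x3)) ⟨x3, mem_filter.2 ⟨x3A, rfl⟩⟩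
    (p1.trans (Nat.mul_le_mul_left _ (p2.trans (Nat.mul_le_mul_left _ p3))))
    j0 hJ (α j0 x3) (fun x hx => (mem_filter.1 hx).2) (m3 x3 x3A)
    (by
      intro x hx
      obtain ⟨a1, a2, a3⟩ := m2 x (mem_filter.1 hx).1
      have a4 := e2 x
      have a5 := I.unc x a1
      rw [a2] at a4
      have e : ∀ m n : ℕ, m ≤ n → m * 2 ^ (v + 1) ≤ 2 * n * 2 ^ v := fun m n h => by
        calc _ ≤ n * 2 ^ (v + 1) := Nat.mul_le_mul_right _ h
          _ = _ := by ring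
      refine le_trans (e _ _ (card_le_card ?_)) ((Nat.mul_le_mul_right _ a4).trans a5)
      intro j hj
      obtain ⟨c1, c2, c3⟩ := mem_filter.1 hj
      have c4 := mem_range.1 c1
      refine mem_filter.2 ⟨mem_filter.2 ⟨mem_range.2 (c4.trans hJ), c2⟩, ?_,
        f2 x j (a3 ▸ c4)⟩
      simp only [hF]
      rw [add_mul, add_mul, one_mul, one_mul, ← add_assoc, ← add_assoc (2 * p) _ (60 * p)]
      exact c3)
  exact ⟨hv, A', B', j0, T', I'⟩

omit [DecidableEq Y] in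
theorem done_mono {p K : ℕ} {α : ℕ → X → V} {β : ℕ → Y → V} {h h' : ℕ} (hh : h ≤ h')
    (d : Done p K α β h) : Done p K α β h' := by
  obtain ⟨A, B, J, a1, a2, a3, a4, a5⟩ := d
  have := Nat.pow_le_pow_right (show 0 < 2 by norm_num) hh
  exact ⟨A, B, J, a1, a2, a3.trans (Nat.mul_le_mul_right _ this),
    a4.trans (Nat.mul_le_mul_right _ this), a5⟩

/-- The structure theorem. -/
theorem structure_thm [Nonempty X] [Nonempty Y] (p K : ℕ) (hp : 1 ≤ p) (hK : K ≤ 2 ^ p)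
    (α : ℕ → X → V) (β : ℕ → Y → V) : Done p K α β (90000000000 * p ^ 10) := by
  classical
  obtain ⟨μ, h1, h2⟩ := exists_mu (250 * p ^ 2) (by positivity)
  have main : ∀ r v, v + r = p + 1 → ∀ A B J T, Inv μ p K α β v A B J T →
      Done p K α β (30000000000 * p ^ 9 * (p + 2)) := by
    intro r
    induction r with
    | zero =>
      intro v hv A B J T I
      rcases step hp hK h1 h2 I with d | ⟨d, -⟩
      · exact done_mono (Nat.mul_le_mul_left _ (by omega)) d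
      · omega
    | succ r ih =>
      intro v hv A B J T I
      rcases step hp hK h1 h2 I with d | ⟨-, A', B', J', T', I'⟩
      · exact done_mono (Nat.mul_le_mul_left _ (by omega)) d
      · exact ih (v + 1) (by omega) A' B' J' T' I'
  refine done_mono ?_ (main (p + 1) 0 (by omega) univ univ K ∅ ⟨univ_nonempty, univ_nonempty,
    by simp, by simp, le_rfl, fun h => absurd h (lt_irrefl _), by simp, by simp [pot], by simp,
    ?_⟩)
  · calc _ ≤ 30000000000 * p ^ 9 * (3 * p) := Nat.mul_le_mul_left _ (by omega)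
      _ = _ := by ring
  · intro x _
    rw [pow_zero, mul_one]
    exact (card_filter_le _ _).trans ((card_range K).le.trans hK)

end Pool.Agent.P.MP_a54059_lc.EX
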