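import Pool.Agent.P.MP_a54059_lc.EX.Cover

/-!
Restricting to a feasible cell while covering all cells that are far from feasible.
-/

namespace Pool.Agent.P.MP_a54059_lc.EX

open Finset

variable {Y : Type} [DecidableEq Y]

theorem transfer {μ : ℝ} {B : Finset Y} {T : Finset (Finset Y × ℕ)} {L sh th : ℕ} {δ : ℝ}
    {S S' : Finset Y} {ξ : Finset Y × ℕ → ℕ} (w : Wit μ B T L sh th δ S ξ) (h1 : S' ⊆ S)
    (h2 : S.card ≤ 2 * S'.card) (t : Finset Y × ℕ) (ht : t ∈ T) (a : ℕ)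
    (ha : ∀ y ∈ S', y ∈ t.1 → ξ t ≤ a) :
    mass S' (t.1, a - ξ t) * B.card ≤ 2 * mass B (t.1, a) * S'.card := by
  rcases (t.1 ∩ S').eq_empty_or_nonempty with h | ⟨y, hy⟩
  · have := mass_nonneg B (t.1, a)
    rw [mass, h, card_empty, Nat.cast_zero, mul_zero, zero_mul]
    positivity
  · obtain ⟨k, hk⟩ := Nat.exists_eq_add_of_le (ha y (mem_inter.1 hy).2 (mem_inter.1 hy).1)
    have b1 : (t.1 ∩ S').card * B.card ≤ 2 ^ ξ t * (t.1 ∩ B).card * (2 * S'.card) :=
      (Nat.mul_le_mul_right _ (card_le_card (inter_subset_inter_left h1))).trans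
        ((w.dens t ht).trans (Nat.mul_le_mul_left _ h2))
    have b2 : ((t.1 ∩ S').card : ℝ) * B.card ≤ 2 ^ ξ t * (t.1 ∩ B).card * (2 * S'.card) := by
      exact_mod_cast b1
    have b3 := mul_le_mul_of_nonneg_left b2 (show (0 : ℝ) ≤ 2 ^ k by positivity)
    simp only [mass, hk, Nat.add_sub_cancel_left, pow_add]
    linarith

theorem transfer_sum {ι : Type} (s : Finset ι) (m m' : ι → ℝ) (b b' σ : ℝ) (hb : 0 < b)
    (hb' : 0 ≤ b') (h : ∀ i ∈ s, m' i * b ≤ 2 * m i * b') (hs : ∑ i ∈ s, m i ≤ σ * b) :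
    ∑ i ∈ s, m' i ≤ 2 * σ * b' := by
  have a1 := sum_le_sum h
  rw [← sum_mul, ← sum_mul, ← mul_sum] at a1
  have a2 := mul_le_mul_of_nonneg_right hs hb'
  apply le_of_mul_le_mul_right _ hb
  linarith

theorem mass_shift (B w : Finset Y) (a b g : ℕ) (h : a + g ≤ b) :
    mass B (w, a) ≤ 1 / 2 ^ g * mass B (w, b) := by
  obtain ⟨k, rfl⟩ := Nat.exists_eq_add_of_le h
  simp only [mass, pow_add]
  have a1 : (1 : ℝ) ≤ 2 ^ k := one_le_pow₀ (by norm_num)
  have a2 : (0 : ℝ) ≤ 2 ^ a * (w ∩ B).card := by positivity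
  calc _ ≤ 2 ^ k * ((2 : ℝ) ^ a * (w ∩ B).card) := le_mul_of_one_le_left a2 a1
    _ = _ := by field_simp

theorem load_le {μ : ℝ} (hμ : 1 ≤ μ) {B : Finset Y} {T : Finset (Finset Y × ℕ)} {L sh th : ℕ}
    {δ : ℝ} {S : Finset Y} {ξ : Finset Y × ℕ → ℕ} (w : Wit μ B T L sh th δ S ξ) (y : Y)
    (hy : y ∈ S) : ∑ t ∈ T with y ∈ t.1, μ ^ ξ t / μ ^ t.2 ≤ μ ^ th * pot μ T y + δ := by
  have hμ0 : 0 < μ := by linarith
  rw [← sum_filter_add_sum_filter_not _ (fun t => th < ξ t), filter_filter, add_comm]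
  refine add_le_add ?_ (w.load y hy)
  rw [pot, mul_sum]
  calc _ ≤ ∑ t ∈ (T.filter (fun t => y ∈ t.1)) with ¬ th < ξ t, μ ^ th * (1 / μ ^ t.2) := by
        apply sum_le_sum
        intro t ht
        rw [mul_one_div]
        exact div_le_div_of_nonneg_right (pow_le_pow_right₀ hμ (not_lt.1 (mem_filter.1 ht).2))
          (by positivity)
    _ ≤ _ := sum_le_sum_of_subset_of_nonneg (filter_subset _ _) fun t _ _ => by positivity

/-- The penalty of a copy at a point. -/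
noncomputable def pen (μ E : ℝ) (g : ℕ) (ξ : Finset Y × ℕ → ℕ) (z : (Finset Y × ℕ) × ℕ)
    (y : Y) : ℝ :=
  if y ∈ z.1.1 then (if z.2 < ξ z.1 + g then 1 else 0) + μ ^ (ξ z.1 + g) / μ ^ z.2 / (4 * E)
  else 0

theorem pen_nonneg {μ E : ℝ} (hμ : 0 < μ) (hE : 0 < E) (g : ℕ) (ξ : Finset Y × ℕ → ℕ)
    (z : (Finset Y × ℕ) × ℕ) (y : Y) : 0 ≤ pen μ E g ξ z y := by
  unfold pen
  split_ifs <;> positivity

theorem pen_sum {μ : ℝ} (hμ : 1 ≤ μ) {B : Finset Y} {T : Finset (Finset Y × ℕ)} {L sh th : ℕ}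
    {δ : ℝ} {S : Finset Y} {ξ : Finset Y × ℕ → ℕ} (w : Wit μ B T L sh th δ S ξ) (y : Y)
    (hy : y ∈ S) (g Q Λ : ℕ) (δ' Ψ E : ℝ) (hΨ : pot μ T y ≤ Ψ) (hg : μ ^ g ≤ 2) (hδ' : 0 < δ')
    (hG : 16 * Λ * Q * δ ≤ δ') (hE0 : 0 < E) (hE : 2 * Λ * Q * (μ ^ th * Ψ + δ) ≤ E * δ') :
    ∑ z ∈ (T ×ˢ range Λ) with th + g < z.2,
      Q * (μ ^ z.2 / μ ^ z.1.2) / δ' * pen μ E g ξ z y ≤ 3 / 8 := by
  have hμ0 : 0 < μ := by linarith
  set b : Finset Y × ℕ → ℝ := fun t =>
    2 * Q / δ' * (if y ∈ t.1 ∧ th < ξ t then μ ^ ξ t / μ ^ t.2 else 0) +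
    2 * Q / (4 * E * δ') * (if y ∈ t.1 then μ ^ ξ t / μ ^ t.2 else 0) with hb
  have b0 : ∀ t, 0 ≤ b t := fun t => by
    simp only [hb]
    split_ifs <;> positivity
  have a1 : ∀ z ∈ (T ×ˢ range Λ).filter (fun z => th + g < z.2),
      Q * (μ ^ z.2 / μ ^ z.1.2) / δ' * pen μ E g ξ z y ≤ b z.1 := by
    intro z hz
    have z1 := (mem_filter.1 hz).2
    by_cases h : y ∈ z.1.1
    · simp only [hb, pen, h, if_true, true_and]
      rw [mul_add]
      apply add_le_add
      · by_cases h' : z.2 < ξ z.1 + g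
        · rw [if_pos h', if_pos (by omega), mul_one]
          have c1 : μ ^ z.2 ≤ 2 * μ ^ ξ z.1 := by
            calc _ ≤ μ ^ (ξ z.1 + g) := pow_le_pow_right₀ hμ h'.le
              _ = μ ^ g * μ ^ ξ z.1 := by rw [pow_add, mul_comm]
              _ ≤ _ := by gcongr
          calc _ ≤ Q * (2 * μ ^ ξ z.1 / μ ^ z.1.2) / δ' := by gcongr
            _ = _ := by ring
        · rw [if_neg h', mul_zero]
          split_ifs <;> positivity
      · calc _ = μ ^ g * (Q / (4 * E * δ') * (μ ^ ξ z.1 / μ ^ z.1.2)) := by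
              rw [pow_add]; field_simp
          _ ≤ 2 * (Q / (4 * E * δ') * (μ ^ ξ z.1 / μ ^ z.1.2)) := by gcongr
          _ = _ := by ring
    · simp only [pen, h, if_false, mul_zero]
      exact b0 _
  have a2 : ∑ z ∈ (T ×ˢ range Λ) with th + g < z.2, b z.1 ≤ ∑ z ∈ T ×ˢ range Λ, b z.1 :=
    sum_le_sum_of_subset_of_nonneg (filter_subset _ _) fun z _ _ => b0 _
  have a3 : ∑ z ∈ T ×ˢ range Λ, b z.1 = Λ * ∑ t ∈ T, b t := by
    rw [sum_product, mul_sum]
    simp
  have a4 : ∑ t ∈ T, b t ≤ 2 * Q / δ' * δ + 2 * Q / (4 * E * δ') * (μ ^ th * Ψ + δ) := by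
    simp only [hb]
    rw [sum_add_distrib, ← mul_sum, ← mul_sum, ← sum_filter, ← sum_filter]
    have c1 := w.load y hy
    have c2 := (load_le hμ w y hy).trans (add_le_add_left
      (mul_le_mul_of_nonneg_left hΨ (show 0 ≤ μ ^ th by positivity)) δ)
    gcongr
  have a5 : (Λ : ℝ) * (2 * Q / δ' * δ) ≤ 1 / 8 := by
    calc _ = (16 * Λ * Q * δ) / δ' / 8 := by field_simp; ring
      _ ≤ δ' / δ' / 8 := by gcongr
      _ = _ := by field_simp
  have a6 : (Λ : ℝ) * (2 * Q / (4 * E * δ') * (μ ^ th * Ψ + δ)) ≤ 1 / 4 := by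
    calc _ = (2 * Λ * Q * (μ ^ th * Ψ + δ)) / (E * δ') / 4 := by field_simp
      _ ≤ (E * δ') / (E * δ') / 4 := by gcongr
      _ = _ := by field_simp
  have a7 := mul_le_mul_of_nonneg_left a4 (Nat.cast_nonneg (α := ℝ) Λ)
  have a8 := sum_le_sum a1
  rw [mul_add] at a7
  linarith

theorem restrict {V : Type} (μ : ℝ) (hμ : 1 ≤ μ) (B : Finset Y) (hB : B.Nonempty)
    (T : Finset (Finset Y × ℕ)) (β : ℕ → Y → V) (K L ℓ sh θ g Q Λ ρ : ℕ) (δ δ' D Ψ E τ0 τ : ℝ)
    (S : Finset Y) (ξ : Finset Y × ℕ → ℕ) (w : Wit μ B T L sh (θ + sh) δ S ξ)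
    (hD : ∀ y ∈ B, ((T.filter (fun t => y ∈ t.1)).card : ℝ) ≤ D) (hΨ : ∀ y ∈ B, pot μ T y ≤ Ψ)
    (hg : μ ^ g ≤ 2) (hQ : 8 * K ≤ 2 ^ Q) (hΛ : L + ℓ + 2 ≤ Λ) (hδ : 0 ≤ δ) (hδ' : 0 < δ')
    (hG : 16 * Λ * Q * δ ≤ δ') (hE0 : 0 < E)
    (hE : 2 * Λ * Q * (μ ^ (θ + sh) * Ψ + δ) ≤ E * δ') (hρ : (K : ℝ) ≤ μ ^ ρ) (hℓ : ρ + g ≤ ℓ)
    (hτ1 : 2 * (2 ^ sh * τ0) ≤ τ) (hτ2 : (4 + 16 * D * Λ) / 2 ^ g ≤ τ) :
    ∃ S' ⊆ S, ∃ U : Finset (Finset Y × ℕ), S.card ≤ 2 * S'.card ∧
      U.card ≤ T.card * (1 + Λ) + K * (2 ^ (L + ℓ) + 1) ∧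
      (∀ u ∈ U, (∃ t ∈ T, u.2 ≤ t.2 + sh) ∨ u.2 < Λ ∨ u.2 = ρ) ∧
      (∀ y ∈ S', pot μ U y ≤ μ ^ θ * Ψ + δ + 4 * E + 1) ∧
      (∀ c, Cov B T τ0 c → Cov S' U τ c) ∧
      ∀ j < K, ∀ a, ¬ Feas μ B T (L + ℓ) (sh + g) (θ + sh + g) δ' (fun y => β j y = a) →
        Cov S' U τ (fun y => β j y = a) := by
  classical
  have hμ0 : 0 < μ := by linarith
  have hBp : (0 : ℝ) < B.card := by exact_mod_cast hB.card_pos
  have hD0 : 0 ≤ D := by
    obtain ⟨y, hy⟩ := hB
    exact le_trans (Nat.cast_nonneg _) (hD y hy)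
  choose R P r1 r2 r3 r4 r5 using fun (j : ℕ) (a : V) =>
    cover μ hμ0 B hB T (L + ℓ) (sh + g) (θ + sh + g) δ' D hD (fun y => β j y = a)
  choose γ W g1 g2 g3 g4 using fun j : ℕ => group B (β j) (R j) (L + ℓ) (r1 j) (r2 j)
  set I := (T ×ˢ range Λ).filter (fun z => θ + sh + g < z.2) with hI
  set J : ℕ → Y → Finset ((Finset Y × ℕ) × ℕ) := fun j y =>
    (P j (β j y)).filter (fun z => y ∈ z.1.1 ∧ θ + sh + g < z.2) with hJ
  obtain ⟨Z, z1, S', s1, s2, s3⟩ := select S I (fun z => Q * (μ ^ z.2 / μ ^ z.1.2) / δ')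
    (fun z => by positivity) (pen μ E g ξ) (pen_nonneg hμ0 hE0 g ξ) K Q J
    (fun j y => δ' < ∑ z ∈ J j y, μ ^ z.2 / μ ^ z.1.2)
    (by
      intro j _ y _ ha
      constructor
      · intro z hz
        obtain ⟨a1, -, a2⟩ := mem_filter.1 hz
        obtain ⟨a3, a4⟩ := r3 _ _ z a1
        exact mem_filter.2 ⟨mem_product.2 ⟨a3, mem_range.2 (by omega)⟩, a2⟩
      · rw [← sum_div, ← mul_sum, le_div_iff₀ hδ']
        exact mul_le_mul_of_nonneg_left ha.le (Nat.cast_nonneg _))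
    (by
      intro y hy
      have a1 := pen_sum hμ w y hy g Q Λ δ' Ψ E (hΨ y (w.sub hy)) hg hδ' hG hE0 hE
      have a2 : (K : ℝ) / 2 ^ Q ≤ 1 / 8 := by
        have b1 : (8 * K : ℝ) ≤ 2 ^ Q := by exact_mod_cast hQ
        rw [div_le_iff₀ (by positivity)]
        linarith
      linarith)
  have hS' : (0 : ℝ) ≤ S'.card := Nat.cast_nonneg _
  have zT : ∀ z ∈ Z, z.1 ∈ T ∧ z.2 < Λ := fun z hz => by
    obtain ⟨a1, a2⟩ := mem_product.1 (mem_filter.1 (z1 hz)).1
    exact ⟨a1, mem_range.1 a2⟩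
  have viol : ∀ y ∈ S', ∀ z ∈ Z, y ∈ z.1.1 → ξ z.1 + g ≤ z.2 := by
    intro y hy z hz h
    by_contra hc
    have a1 := single_le_sum (f := fun z => pen μ E g ξ z y)
      (fun z _ => pen_nonneg hμ0 hE0 g ξ z y) hz
    have a2 := (s3 y hy).2
    simp only [pen, h, not_le.1 hc, if_true] at a1
    have a3 : 0 ≤ μ ^ (ξ z.1 + g) / μ ^ z.2 / (4 * E) := by positivity
    simp only [pen] at a2
    linarith
  set old : Finset Y × ℕ → Finset Y × ℕ := fun t => (t.1, t.2 + sh - ξ t) with hold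
  set cop : (Finset Y × ℕ) × ℕ → Finset Y × ℕ := fun z => (z.1.1, z.2 - g - ξ z.1) with hcop
  set res : ℕ × ℕ → Finset Y × ℕ := fun i => (W i.1 i.2, ρ) with hres
  set N := range K ×ˢ range (2 ^ (L + ℓ) + 1) with hN
  have u1 : ∀ t ∈ T, old t ∈ T.image old ∪ Z.image cop ∪ N.image res := fun t ht =>
    mem_union_left _ (mem_union_left _ (mem_image_of_mem _ ht))
  have u2 : ∀ z ∈ Z, cop z ∈ T.image old ∪ Z.image cop ∪ N.image res := fun t ht =>
    mem_union_left _ (mem_union_right _ (mem_image_of_mem _ ht))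
  have u3 : ∀ i ∈ N, res i ∈ T.image old ∪ Z.image cop ∪ N.image res := fun t ht =>
    mem_union_right _ (mem_image_of_mem _ ht)
  have t1 : ∀ t ∈ T, mass S' (old t) * B.card ≤ 2 * mass B (t.1, t.2 + sh) * S'.card :=
    fun t ht => transfer w s1 s2 t ht _ fun y hy h => w.slack y (s1 hy) t ht h
  have t2 : ∀ z ∈ Z, mass S' (cop z) * B.card ≤ 2 * mass B (z.1.1, z.2 - g) * S'.card :=
    fun z hz => transfer w s1 s2 z.1 (zT z hz).1 _ fun y hy h => by
      have := viol y hy z hz h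
      omega
  refine ⟨S', s1, T.image old ∪ Z.image cop ∪ N.image res, s2, ?_, ?_, ?_, ?_, ?_⟩
  · have a1 : (T.image old).card ≤ T.card := card_image_le
    have a2 : (Z.image cop).card ≤ T.card * Λ := by
      refine card_image_le.trans ((card_le_card (z1.trans (filter_subset _ _))).trans ?_)
      rw [card_product, card_range]
    have a3 : (N.image res).card ≤ K * (2 ^ (L + ℓ) + 1) := by
      refine card_image_le.trans ?_
      rw [hN, card_product, card_range, card_range]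
    have a4 := card_union_le (T.image old ∪ Z.image cop) (N.image res)
    have a5 := card_union_le (T.image old) (Z.image cop)
    rw [mul_add, mul_one]
    omega
  · intro u hu
    rcases mem_union.1 hu with hu | hu
    · rcases mem_union.1 hu with hu | hu
      · obtain ⟨t, ht, rfl⟩ := mem_image.1 hu
        exact Or.inl ⟨t, ht, Nat.sub_le _ _⟩
      · obtain ⟨z, hz, rfl⟩ := mem_image.1 hu
        have := (zT z hz).2
        exact Or.inr (Or.inl (by simp only [hcop]; omega))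
    · obtain ⟨i, -, rfl⟩ := mem_image.1 hu
      exact Or.inr (Or.inr rfl)
  · intro y hy
    have a1 : pot μ (T.image old) y ≤ μ ^ θ * Ψ + δ := by
      refine (pot_image_le μ hμ0 T old y).trans ?_
      have b1 : ∑ t ∈ T with y ∈ (old t).1, 1 / μ ^ (old t).2 =
          (∑ t ∈ T with y ∈ t.1, μ ^ ξ t / μ ^ t.2) / μ ^ sh := by
        rw [sum_div]
        apply sum_congr rfl
        intro t ht
        obtain ⟨k, hk⟩ := Nat.exists_eq_add_of_le
          (w.slack y (s1 hy) t (mem_filter.1 ht).1 (mem_filter.1 ht).2)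
        simp only [hold]
        rw [div_div, ← pow_add, hk, Nat.add_sub_cancel_left, pow_add]
        field_simp
      have b2 := (load_le hμ w y (s1 hy)).trans (add_le_add_left
        (mul_le_mul_of_nonneg_left (hΨ y (w.sub (s1 hy)))
          (show 0 ≤ μ ^ (θ + sh) by positivity)) δ)
      have b3 : δ ≤ δ * μ ^ sh := le_mul_of_one_le_right hδ (one_le_pow₀ hμ)
      rw [b1, div_le_iff₀ (by positivity)]
      rw [pow_add] at b2
      linarith
    have a2 : pot μ (Z.image cop) y ≤ 4 * E := by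
      refine (pot_image_le μ hμ0 Z cop y).trans ?_
      have b1 : ∑ z ∈ Z with y ∈ (cop z).1, 1 / μ ^ (cop z).2 ≤
          ∑ z ∈ Z, 4 * E * pen μ E g ξ z y := by
        rw [sum_filter]
        apply sum_le_sum
        intro z hz
        by_cases h : y ∈ z.1.1
        · obtain ⟨k, hk⟩ := Nat.exists_eq_add_of_le (viol y hy z hz h)
          have e : z.2 - g - ξ z.1 = k := by omega
          simp only [hcop, pen, h, if_true, e]
          rw [if_neg (by omega), zero_add, hk, pow_add μ _ k]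
          apply le_of_eq
          field_simp
        · simp only [hcop, pen, h, if_false, mul_zero, le_refl]
      rw [← mul_sum] at b1
      have b2 := mul_le_mul_of_nonneg_left (s3 y hy).2.le (show 0 ≤ 4 * E by positivity)
      linarith
    have a3 : pot μ (N.image res) y ≤ 1 := by
      refine (pot_image_le μ hμ0 N res y).trans ?_
      have b1 : (N.filter (fun i => y ∈ (res i).1)).card ≤ K := by
        calc _ ≤ ((range K).image (fun j => (j, γ j (β j y)))).card := by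
              apply card_le_card
              intro i hi
              obtain ⟨c1, c2⟩ := mem_filter.1 hi
              exact mem_image.2 ⟨i.1, (mem_product.1 c1).1,
                Prod.ext rfl (g3 i.1 i.2 y c2).symm⟩
          _ ≤ _ := card_image_le.trans (card_range K).le
      have b2 : ((N.filter (fun i => y ∈ (res i).1)).card : ℝ) ≤ μ ^ ρ :=
        le_trans (by exact_mod_cast b1) hρ
      simp only [hres] at b2 ⊢
      rw [sum_const, nsmul_eq_mul, mul_one_div, div_le_one (by positivity)]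
      exact b2
    have a4 := pot_union_le μ hμ0 (T.image old ∪ Z.image cop) (N.image res) y
    have a5 := pot_union_le μ hμ0 (T.image old) (Z.image cop) y
    linarith
  · rintro c ⟨C, c1, c2, c3⟩
    refine cov_family C old (fun t ht => u1 t (c1 ht))
      (fun y hy h => c2 y (w.sub (s1 hy)) h) ?_
    refine (transfer_sum C (fun t => mass B (t.1, t.2 + sh)) _ _ _ (2 ^ sh * τ0) hBp hS'
      (fun t ht => t1 t (c1 ht)) ?_).trans (mul_le_mul_of_nonneg_right hτ1 hS')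
    calc _ = ∑ t ∈ C, 2 ^ sh * mass B t := by
          apply sum_congr rfl
          intro t _
          simp only [mass, pow_add]
          ring
      _ ≤ _ := by
          rw [← mul_sum, mul_assoc]
          exact mul_le_mul_of_nonneg_left c3 (by positivity)
  · intro j hj a hf
    have sP : ∀ (C : Finset ((Finset Y × ℕ) × ℕ)) (e : (Finset Y × ℕ) × ℕ → ℕ), C ⊆ P j a →
        (∀ z ∈ C, e z + g ≤ z.2) →
        ∑ z ∈ C, mass B (z.1.1, e z) ≤ 4 * D * Λ / 2 ^ g * B.card := by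
      intro C e c1 c2
      have b1 : ((L + ℓ : ℕ) : ℝ) + 1 ≤ Λ := by
        have : L + ℓ + 1 ≤ Λ := by omega
        exact_mod_cast this
      calc _ ≤ ∑ z ∈ C, 1 / 2 ^ g * mass B (z.1.1, z.2) :=
            sum_le_sum fun z hz => mass_shift B _ _ _ g (c2 z hz)
        _ ≤ ∑ z ∈ P j a, 1 / 2 ^ g * mass B (z.1.1, z.2) :=
            sum_le_sum_of_subset_of_nonneg c1 fun z _ _ => by
              have := mass_nonneg B (z.1.1, z.2)
              positivity
        _ ≤ 1 / 2 ^ g * (4 * D * (((L + ℓ : ℕ) : ℝ) + 1) * B.card) := by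
            rw [← mul_sum]
            exact mul_le_mul_of_nonneg_left (r4 j a) (by positivity)
        _ ≤ 1 / 2 ^ g * (4 * D * Λ * B.card) := by gcongr
        _ = _ := by ring
    have k1 : Cov S' (T.image old ∪ Z.image cop ∪ N.image res) (4 / 2 ^ g)
        (fun y => y ∈ W j (γ j a)) := by
      refine cov_family {(j, γ j a)} res ?_ (fun y _ h => ⟨_, mem_singleton_self _, h⟩) ?_
      · intro i hi
        rw [mem_singleton.1 hi]
        exact u3 _ (mem_product.2 ⟨mem_range.2 hj, mem_range.2 (Nat.lt_succ_of_le (g1 j a))⟩)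
      · rw [sum_singleton]
        have b1 : 2 ^ L * (2 ^ (ρ + g) * (W j (γ j a) ∩ S').card) ≤ 2 ^ L * (4 * S'.card) := by
          calc _ ≤ 2 ^ L * (2 ^ ℓ * (W j (γ j a)).card) := Nat.mul_le_mul_left _
                (Nat.mul_le_mul (Nat.pow_le_pow_right (by norm_num) hℓ)
                  (card_le_card inter_subset_left))
            _ = 2 ^ (L + ℓ) * (W j (γ j a)).card := by rw [pow_add, mul_assoc]
            _ ≤ 2 * B.card := g4 j _
            _ ≤ 2 * (2 ^ L * (2 * S'.card)) :=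
                Nat.mul_le_mul_left _ (w.big.trans (Nat.mul_le_mul_left _ s2))
            _ = _ := by ring
        have b2 := Nat.le_of_mul_le_mul_left b1 (Nat.two_pow_pos L)
        have b3 : (2 : ℝ) ^ (ρ + g) * (W j (γ j a) ∩ S').card ≤ 4 * S'.card := by
          exact_mod_cast b2
        simp only [hres, mass]
        rw [div_mul_eq_mul_div, le_div_iff₀ (by positivity)]
        rw [pow_add] at b3
        linarith
    have k2 : Cov S' (T.image old ∪ Z.image cop ∪ N.image res) (2 * (4 * D * Λ / 2 ^ g))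
        (fun y => ∃ z ∈ P j a, y ∈ z.1.1 ∧ z.1.2 + (sh + g) < z.2) := by
      refine cov_family ((P j a).filter (fun z => z.1.2 + (sh + g) < z.2)) (fun z => old z.1)
        (fun z hz => u1 _ (r3 j a z (mem_filter.1 hz).1).1) ?_ ?_
      · rintro y _ ⟨z, a1, a2, a3⟩
        exact ⟨z, mem_filter.2 ⟨a1, a3⟩, a2⟩
      · refine transfer_sum _ (fun z => mass B (z.1.1, z.1.2 + sh)) _ _ _ _ hBp hS'
          (fun z hz => t1 _ (r3 j a z (mem_filter.1 hz).1).1)
          (sP _ (fun z => z.1.2 + sh) (filter_subset _ _) fun z hz => ?_)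
        have := (mem_filter.1 hz).2
        omega
    have k3 : Cov S' (T.image old ∪ Z.image cop ∪ N.image res) (2 * (4 * D * Λ / 2 ^ g))
        (fun y => ∃ z ∈ Z ∩ P j a, y ∈ z.1.1) := by
      refine cov_family (Z ∩ P j a) cop (fun z hz => u2 _ (mem_inter.1 hz).1)
        (fun y _ h => h) ?_
      refine transfer_sum _ (fun z => mass B (z.1.1, z.2 - g)) _ _ _ _ hBp hS'
        (fun z hz => t2 _ (mem_inter.1 hz).1) 
        (sP _ (fun z => z.2 - g) inter_subset_right fun z hz => ?_)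
      have := (mem_filter.1 (z1 (mem_inter.1 hz).1)).2
      omega
    refine cov_union k1 (cov_union k2 k3 (fun y _ h => h) le_rfl) ?_ (le_trans (le_of_eq ?_) hτ2)
    · intro y hy h
      rcases r5 j a hf y (w.sub (s1 hy)) h with b | b | b
      · exact Or.inl (g2 j a b)
      · exact Or.inr (Or.inl b)
      · subst h
        obtain ⟨z, c1, c2⟩ := (s3 y hy).1 j hj b
        obtain ⟨c3, c4, -⟩ := mem_filter.1 c2
        exact Or.inr (Or.inr ⟨z, mem_inter.2 ⟨c1, c3⟩, c4⟩)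
    · ring

end Pool.Agent.P.MP_a54059_lc.EX
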